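import Pool.Agent.Q30.BT.Thm
import Pool.Agent.Q30.FJ.Lin2P

/-!
# The valuation defined by a degree function, and the general linear group of degree two
-/

set_option autoImplicit false

namespace Q30.BT

open Q30.FJ (V2 el cmat)
open Pool.Agent.Y110.FJ (ClosedE)

/-- a degree function -/
structure DegF {A : Type} [CommRing A] (deg : A → ℕ) : Prop where
  mul : ∀ a b, a ≠ 0 → b ≠ 0 → deg (a * b) = deg a + deg b
  add : ∀ a b, a ≠ 0 → b ≠ 0 → a + b ≠ 0 → deg (a + b) ≤ max (deg a) (deg b)

section val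

variable {A : Type} [CommRing A] [IsDomain A] {deg : A → ℕ} (h : DegF deg)

include h

theorem DegF.one : deg 1 = 0 := by
  have h1 := h.mul 1 1 one_ne_zero one_ne_zero
  rw [mul_one] at h1
  omega

/-- elements of degree zero -/
def D0 (deg : A → ℕ) (a : A) : Prop := a = 0 ∨ deg a = 0

theorem DegF.d0_add {a b : A} (ha : D0 deg a) (hb : D0 deg b) : D0 deg (a + b) := by
  rcases ha with rfl | ha
  · rwa [zero_add]
  rcases hb with rfl | hb
  · rw [add_zero]
    exact Or.inr ha
  by_cases h0 : a = 0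
  · rw [h0, zero_add]
    exact Or.inr hb
  by_cases h1 : b = 0
  · rw [h1, add_zero]
    exact Or.inr ha
  by_cases h2 : a + b = 0
  · exact Or.inl h2
  · right
    have h3 := h.add a b h0 h1 h2
    rw [ha, hb] at h3
    simpa using h3

theorem DegF.d0_unit {a : A} (ha : IsUnit a) : deg a = 0 := by
  obtain ⟨u, rfl⟩ := ha
  have h1 := h.mul u.1 u.2 u.ne_zero (u⁻¹).ne_zero
  rw [u.val_inv, h.one] at h1
  omega

theorem DegF.d0_neg {a : A} (ha : D0 deg a) : D0 deg (-a) := by
  rcases ha with rfl | ha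
  · rw [neg_zero]
    exact Or.inl rfl
  · by_cases h0 : a = 0
    · rw [h0, neg_zero]
      exact Or.inl rfl
    · right
      have h1 : deg (-1 * a) = deg (-1 : A) + deg a :=
        h.mul _ _ (neg_ne_zero.2 one_ne_zero) h0
      rw [neg_one_mul] at h1
      rw [h1, ha, h.d0_unit (isUnit_one.neg)]

variable {K : Type} [Field K] [Algebra A K] [IsFractionRing A K]

omit h in
theorem exists_frac (x : K) : ∃ a b : A, b ≠ 0 ∧ x = algebraMap A K a / algebraMap A K b := by
  obtain ⟨a, b, hb, hx⟩ := IsFractionRing.div_surjective (A := A) x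
  exact ⟨a, b, nonZeroDivisors.ne_zero hb, hx.symm⟩

omit h in
theorem am_ne {a : A} (ha : a ≠ 0) : algebraMap A K a ≠ 0 := by
  rwa [Ne, FaithfulSMul.algebraMap_eq_zero_iff]

theorem DegF.exists_v0 : ∃ v0 : K → ℤ, ∀ a b : A, a ≠ 0 → b ≠ 0 →
    v0 (algebraMap A K a / algebraMap A K b) = (deg b : ℤ) - deg a := by
  have h1 : ∀ x : K, ∃ n : ℤ, ∀ a b : A, a ≠ 0 → b ≠ 0 →
      x = algebraMap A K a / algebraMap A K b → n = (deg b : ℤ) - deg a := by
    intro x
    obtain ⟨a, b, hb, rfl⟩ := exists_frac (A := A) x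
    refine ⟨(deg b : ℤ) - deg a, ?_⟩
    intro c d hc hd hcd
    rw [div_eq_div_iff (am_ne hb) (am_ne hd), ← map_mul, ← map_mul] at hcd
    have h2 : a * d = c * b := IsFractionRing.injective A K hcd
    have ha : a ≠ 0 := by
      rintro rfl
      rw [zero_mul] at h2
      exact (mul_ne_zero hc hb) h2.symm
    have h3 := h.mul a d ha hd
    rw [h2, h.mul c b hc hb] at h3
    omega
  choose v0 hv0 using h1
  exact ⟨v0, fun a b ha hb => hv0 _ a b ha hb rfl⟩

theorem DegF.exists_DV (hp : ∃ a : A, a ≠ 0 ∧ deg a ≠ 0) : ∃ D : DV K, ∀ a : A, a ≠ 0 →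
    (D.v (algebraMap A K a) ≤ 0 ∧ (0 ≤ D.v (algebraMap A K a) ↔ deg a = 0)) := by
  obtain ⟨v0, hv0⟩ := h.exists_v0 (K := K)
  have hmul : ∀ x y : K, x ≠ 0 → y ≠ 0 → v0 (x * y) = v0 x + v0 y := by
    intro x y hx hy
    obtain ⟨a, b, hb, rfl⟩ := exists_frac (A := A) x
    obtain ⟨c, d, hd, rfl⟩ := exists_frac (A := A) y
    have ha : a ≠ 0 := by
      rintro rfl
      rw [map_zero, zero_div] at hx
      exact hx rfl
    have hc : c ≠ 0 := by
      rintro rfl
      rw [map_zero, zero_div] at hy
      exact hy rfl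
    rw [div_mul_div_comm, ← map_mul, ← map_mul, hv0 _ _ (mul_ne_zero ha hc) (mul_ne_zero hb hd),
      hv0 _ _ ha hb, hv0 _ _ hc hd, h.mul _ _ ha hc, h.mul _ _ hb hd]
    push_cast
    ring
  have hadd : ∀ (x y : K) (m : ℤ), (x = 0 ∨ m ≤ v0 x) → (y = 0 ∨ m ≤ v0 y) →
      (x + y = 0 ∨ m ≤ v0 (x + y)) := by
    intro x y m hx hy
    rcases hx with rfl | hx
    · rwa [zero_add]
    rcases hy with rfl | hy
    · rw [add_zero]
      exact Or.inr hx
    by_cases hx0 : x = 0
    · rw [hx0, zero_add]
      exact Or.inr hy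
    by_cases hy0 : y = 0
    · rw [hy0, add_zero]
      exact Or.inr hx
    by_cases hxy : x + y = 0
    · exact Or.inl hxy
    right
    obtain ⟨a, b, hb, rfl⟩ := exists_frac (A := A) x
    obtain ⟨c, d, hd, rfl⟩ := exists_frac (A := A) y
    have ha : a ≠ 0 := by
      rintro rfl
      rw [map_zero, zero_div] at hx0
      exact hx0 rfl
    have hc : c ≠ 0 := by
      rintro rfl
      rw [map_zero, zero_div] at hy0
      exact hy0 rfl
    have h1 : algebraMap A K a / algebraMap A K b + algebraMap A K c / algebraMap A K d =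
        algebraMap A K (a * d + b * c) / algebraMap A K (b * d) := by
      rw [div_add_div _ _ (am_ne hb) (am_ne hd), map_add, map_mul, map_mul, map_mul]
    rw [h1] at hxy ⊢
    have h2 : a * d + b * c ≠ 0 := by
      intro h2
      rw [h2, map_zero, zero_div] at hxy
      exact hxy rfl
    rw [hv0 _ _ h2 (mul_ne_zero hb hd), h.mul _ _ hb hd]
    rw [hv0 _ _ ha hb] at hx
    rw [hv0 _ _ hc hd] at hy
    have h3 := h.add (a * d) (b * c) (mul_ne_zero ha hd) (mul_ne_zero hb hc) h2
    rw [h.mul _ _ ha hd, h.mul _ _ hb hc] at h3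
    push_cast
    have h4 : deg (a * d + b * c) ≤ deg a + deg d ∨ deg (a * d + b * c) ≤ deg b + deg c := by
      rcases le_max_iff.1 h3 with h4 | h4
      · exact Or.inl h4
      · exact Or.inr h4
    rcases h4 with h4 | h4
    · omega
    · omega
  have hA : ∀ a : A, a ≠ 0 → v0 (algebraMap A K a) = -(deg a : ℤ) := by
    intro a ha
    have h1 := hv0 a 1 ha one_ne_zero
    rw [map_one, div_one, h.one] at h1
    rw [h1]
    simp
  have hone : v0 1 = 0 := by
    have h1 := hmul 1 1 one_ne_zero one_ne_zero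
    rw [mul_one] at h1
    omega
  have hinv : ∀ x : K, x ≠ 0 → v0 x⁻¹ = -v0 x := by
    intro x hx
    have h1 := hmul x x⁻¹ hx (inv_ne_zero hx)
    rw [mul_inv_cancel₀ hx, hone] at h1
    omega
  -- the generator of the value group
  classical
  have hex : ∃ n : ℕ, 0 < n ∧ ∃ x : K, x ≠ 0 ∧ v0 x = n := by
    obtain ⟨a, ha, hd⟩ := hp
    refine ⟨deg a, Nat.pos_of_ne_zero hd, (algebraMap A K a)⁻¹, inv_ne_zero (am_ne ha), ?_⟩
    rw [hinv _ (am_ne ha), hA _ ha, neg_neg]
  obtain ⟨e, he⟩ : ∃ e, e = Nat.find hex := ⟨_, rfl⟩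
  obtain ⟨he0, t, ht, htv⟩ : 0 < e ∧ ∃ x : K, x ≠ 0 ∧ v0 x = e := by
    rw [he]
    exact Nat.find_spec hex
  have hmin : ∀ n : ℕ, 0 < n → n < e → ¬ ∃ x : K, x ≠ 0 ∧ v0 x = n := by
    intro n hn hne hx
    rw [he] at hne
    exact Nat.find_min hex hne ⟨hn, hx⟩
  have hpow : ∀ k : ℕ, v0 (t ^ k) = k * e := by
    intro k
    induction k with
    | zero => simp [hone]
    | succ k ih =>
      rw [pow_succ, hmul _ _ (pow_ne_zero _ ht) ht, ih, htv]
      push_cast
      ring
  have hzpow : ∀ k : ℤ, ∃ s : K, s ≠ 0 ∧ v0 s = k * e := by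
    intro k
    rcases Int.eq_nat_or_neg k with ⟨m, rfl | rfl⟩
    · exact ⟨t ^ m, pow_ne_zero _ ht, hpow m⟩
    · refine ⟨(t ^ m)⁻¹, inv_ne_zero (pow_ne_zero _ ht), ?_⟩
      rw [hinv _ (pow_ne_zero _ ht), hpow]
      ring
  have hdvd : ∀ x : K, x ≠ 0 → ∃ q : ℤ, v0 x = e * q := by
    intro x hx
    refine ⟨v0 x / e, ?_⟩
    have he' : (e : ℤ) ≠ 0 := by exact_mod_cast he0.ne'
    have h1 := Int.emod_nonneg (v0 x) he'
    have h2 : v0 x % e < e := Int.emod_lt_of_pos _ (by exact_mod_cast he0)
    have h3 := Int.emod_add_mul_ediv (v0 x) e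
    by_cases h4 : v0 x % e = 0
    · rw [h4, zero_add] at h3
      exact h3.symm
    · exfalso
      obtain ⟨s, hs, hsv⟩ := hzpow (-(v0 x / e))
      refine hmin (v0 x % e).toNat (by omega) (by omega) ⟨x * s, mul_ne_zero hx hs, ?_⟩
      rw [hmul _ _ hx hs, hsv, Int.toNat_of_nonneg h1]
      linear_combination -h3
  have he' : (0 : ℤ) < e := by exact_mod_cast he0
  have hle : ∀ (x : K) (m : ℤ), x ≠ 0 → (m ≤ v0 x / e ↔ m * e ≤ v0 x) := by
    intro x m _
    exact Int.le_ediv_iff_mul_le he'
  refine ⟨⟨fun x => v0 x / e, ?_, ?_, ?_⟩, ?_⟩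
  · intro x y hx hy
    obtain ⟨q, hq⟩ := hdvd x hx
    obtain ⟨r, hr⟩ := hdvd y hy
    show v0 (x * y) / e = v0 x / e + v0 y / e
    rw [hmul _ _ hx hy, hq, hr, ← mul_add, Int.mul_ediv_cancel_left _ he'.ne',
      Int.mul_ediv_cancel_left _ he'.ne', Int.mul_ediv_cancel_left _ he'.ne']
  · intro x y m hx hy
    by_cases hxy : x + y = 0
    · exact Or.inl hxy
    right
    show m ≤ v0 (x + y) / e
    rw [hle _ _ hxy]
    refine (hadd x y (m * e) ?_ ?_).resolve_left hxy
    · by_cases hx0 : x = 0
      · exact Or.inl hx0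
      · exact Or.inr ((hle _ _ hx0).1 (hx.resolve_left hx0))
    · by_cases hy0 : y = 0
      · exact Or.inl hy0
      · exact Or.inr ((hle _ _ hy0).1 (hy.resolve_left hy0))
  · refine ⟨t, ht, ?_⟩
    show v0 t / e = 1
    rw [htv, Int.ediv_self he'.ne']
  · intro a ha
    show v0 (algebraMap A K a) / e ≤ 0 ∧ (0 ≤ v0 (algebraMap A K a) / e ↔ deg a = 0)
    have h1 := hA a ha
    constructor
    · rw [h1]
      obtain ⟨q, hq⟩ := hdvd _ (am_ne (K := K) ha)
      rw [h1] at hq
      rw [hq, Int.mul_ediv_cancel_left _ he'.ne']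
      by_contra hc
      push Not at hc
      have h2 : 0 < e * q := mul_pos he' hc
      omega
    · rw [hle _ _ (am_ne ha), zero_mul, h1]
      omega

end val

variable {C : ∀ (G : Type) [Group G], Prop}

theorem cmat_injective {A B : Type} [Ring A] [Ring B] {f : A →+* B} (hf : Function.Injective f) :
    Function.Injective (cmat f) := by
  intro g h hgh
  apply Units.ext
  ext i j
  have h1 := congrArg (fun x : GL (Fin 2) B => (x : Matrix (Fin 2) (Fin 2) B) i j) hgh
  have h2 : f ((g : Matrix (Fin 2) (Fin 2) A) i j) = f ((h : Matrix (Fin 2) (Fin 2) A) i j) := h1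
  exact hf h2

/-- the general linear group of degree two over a ring with a degree function -/
theorem deg_main (hC : ClosedE C) (hsol : ∀ (G : Type) [Group G], Group.IsSolvable G → C G)
    {A B : Type} [CommRing A] [IsDomain A] [CommRing B] {deg : A → ℕ} (h : DegF deg)
    (ε : A →+* B) (hε : ∀ a, deg a = 0 → ε a = 0 → a = 0) (hB : C (GL (Fin 2) B)) :
    C (GL (Fin 2) A) := by
  by_cases hinj : Function.Injective ε
  · exact hC.base.of_injective _ _ (cmat ε) (cmat_injective hinj) hB
  · -- an element of the kernel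
    obtain ⟨b0, hb0, hb0'⟩ : ∃ b0 : A, ε b0 = 0 ∧ b0 ≠ 0 := by
      by_contra hc
      push Not at hc
      exact hinj ((injective_iff_map_eq_zero ε).2 hc)
    have hdeg0 : deg b0 ≠ 0 := fun h0 => hb0' (hε b0 h0 hb0)
    obtain ⟨D, hD⟩ := h.exists_DV (K := FractionRing A) ⟨b0, hb0', hdeg0⟩
    have hcong : ∀ n ∈ (cmat ε).ker, ∀ i j, ε ((n : Matrix (Fin 2) (Fin 2) A) i j) =
        (1 : Matrix (Fin 2) (Fin 2) B) i j := by
      intro n hn i j
      have h1 : cmat ε n = 1 := hn
      have h2 := congrArg (fun x : GL (Fin 2) B => (x : Matrix (Fin 2) (Fin 2) B) i j) h1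
      exact h2
    have hH : Hyp D (cmat (algebraMap A (FractionRing A))) (cmat ε).ker (el b0)
        (-(algebraMap A (FractionRing A) b0)) := by
      refine ⟨cmat_injective (IsFractionRing.injective A _), ?_, ?_, ?_, ?_, ?_⟩
      · intro γ
        have h1 : ((cmat (algebraMap A (FractionRing A)) γ : GL (Fin 2) (FractionRing A)) :
            Matrix (Fin 2) (Fin 2) (FractionRing A)).det =
            algebraMap A (FractionRing A) (γ : Matrix (Fin 2) (Fin 2) A).det := by
          rw [RingHom.map_det]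
          rfl
        have h2 : IsUnit (γ : Matrix (Fin 2) (Fin 2) A).det :=
          ((Matrix.isUnit_iff_isUnit_det _).1 γ.isUnit)
        rw [h1]
        have h3 := h.d0_unit h2
        have h4 := hD _ h2.ne_zero
        have h5 := h4.2.2 h3
        omega
      · intro n hn x hf
        have ht := hf.trace
        have ht' : D.ge (algebraMap A (FractionRing A) ((n : Matrix (Fin 2) (Fin 2) A) 0 0 +
            (n : Matrix (Fin 2) (Fin 2) A) 1 1)) 0 := by
          rw [map_add]
          exact ht
        have h1 : D0 deg ((n : Matrix (Fin 2) (Fin 2) A) 0 0 +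
            (n : Matrix (Fin 2) (Fin 2) A) 1 1) := by
          by_cases h0 : (n : Matrix (Fin 2) (Fin 2) A) 0 0 +
            (n : Matrix (Fin 2) (Fin 2) A) 1 1 = 0
          · exact Or.inl h0
          · right
            rw [DV.ge_iff (am_ne h0)] at ht'
            exact (hD _ h0).2.1 ht'
        have hone : D0 deg (1 : A) := Or.inr h.one
        have key : ∀ a : A, D0 deg a → ε a = 0 → a = 0 := by
          intro a ha hεa
          rcases ha with ha | ha
          · exact ha
          · exact hε a ha hεa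
        have h2 : (n : Matrix (Fin 2) (Fin 2) A) 0 0 + (n : Matrix (Fin 2) (Fin 2) A) 1 1 = 2 := by
          have h3 : D0 deg ((n : Matrix (Fin 2) (Fin 2) A) 0 0 +
            (n : Matrix (Fin 2) (Fin 2) A) 1 1 + -(1 + 1)) :=
            h.d0_add h1 (h.d0_neg (h.d0_add hone hone))
          have h4 := key _ h3 (by
            rw [map_add, map_add, map_neg, map_add, map_one, hcong n hn 0 0, hcong n hn 1 1]
            simp)
          linear_combination h4
        have h3 : (n : Matrix (Fin 2) (Fin 2) A).det = 1 := by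
          have h4 : IsUnit (n : Matrix (Fin 2) (Fin 2) A).det :=
            ((Matrix.isUnit_iff_isUnit_det _).1 n.isUnit)
          have h5 : D0 deg ((n : Matrix (Fin 2) (Fin 2) A).det + -1) :=
            h.d0_add (Or.inr (h.d0_unit h4)) (h.d0_neg hone)
          have h6 := key _ h5 (by
            rw [map_add, map_neg, map_one, Matrix.det_fin_two, map_sub, map_mul, map_mul,
              hcong n hn 0 0, hcong n hn 1 1, hcong n hn 0 1, hcong n hn 1 0]
            simp)
          linear_combination h6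
        rw [Matrix.det_fin_two] at h3
        constructor
        · show algebraMap A (FractionRing A) _ + algebraMap A (FractionRing A) _ = 2
          rw [← map_add, h2, map_ofNat]
        · show algebraMap A (FractionRing A) _ * algebraMap A (FractionRing A) _ -
            algebraMap A (FractionRing A) _ * algebraMap A (FractionRing A) _ = 1
          rw [← map_mul, ← map_mul, ← map_sub, h3, map_one]
      · show cmat ε (el b0) = 1
        apply Units.ext
        ext i j
        fin_cases i <;> fin_cases j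
        · show ε 1 = 1
          rw [map_one]
        · show ε b0 = 0
          exact hb0
        · show ε 0 = 0
          rw [map_zero]
        · show ε 1 = 1
          rw [map_one]
      · refine ⟨?_, ?_, ?_, ?_⟩
        · show algebraMap A (FractionRing A) 1 = 1 + -(algebraMap A (FractionRing A) b0) * (1 * 0)
          rw [map_one]
          ring
        · show algebraMap A (FractionRing A) b0 = -(-(algebraMap A (FractionRing A) b0) * (1 * 1))
          ring
        · show algebraMap A (FractionRing A) 0 = -(algebraMap A (FractionRing A) b0) * (0 * 0)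
          rw [map_zero]
          ring
        · show algebraMap A (FractionRing A) 1 = 1 - -(algebraMap A (FractionRing A) b0) * (1 * 0)
          rw [map_one]
          ring
      · exact neg_ne_zero.2 (am_ne hb0')
    refine hH.main hC hsol ?_
    exact hC.base.of_injective _ _ (QuotientGroup.kerLift (cmat ε))
      (QuotientGroup.kerLift_injective _) hB

end Q30.BT
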