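import Pool.Agent.Q30.BT.App

/-!
# Reduction of general linear groups over commutative rings to the quotients by the minimal primes
-/

set_option autoImplicit false

namespace Q30.BT

open Pool.Agent.Y110.FJ (ClosedE)
open Pool.Agent.Y462.SS (Closed)

variable {C : ∀ (G : Type) [Group G], Prop}

/-- extensions with solvable kernel -/
theorem ext_sol (hC : ClosedE C) (hsol : ∀ (G : Type) [Group G], Group.IsSolvable G → C G)
    {G Q : Type} [Group G] [Group Q] (π : G →* Q) (hk : Group.IsSolvable π.ker) (hQ : C Q) :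
    C G := by
  refine Pool.Agent.Y529.FJ.t_ext C hC G π.ker (hsol _ hk)
    (hC.base.of_injective _ _ (QuotientGroup.kerLift π) (QuotientGroup.kerLift_injective _) hQ) ?_
  intro g _
  apply hsol
  have h1 : ∀ x y : (π.comp (π.ker ⊔ Subgroup.zpowers g).subtype).range, x * y = y * x := by
    have h2 : ∀ x : ↥(π.ker ⊔ Subgroup.zpowers g), π x ∈ Subgroup.zpowers (π g) := by
      rintro ⟨x, hx⟩
      show x ∈ (Subgroup.zpowers (π g)).comap π
      have h3 : π.ker ⊔ Subgroup.zpowers g ≤ (Subgroup.zpowers (π g)).comap π := by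
        rw [sup_le_iff]
        refine ⟨fun y hy => ?_, ?_⟩
        · have hy' : π y = 1 := hy
          show π y ∈ Subgroup.zpowers (π g)
          rw [hy']
          exact Subgroup.one_mem _
        · rw [Subgroup.zpowers_le]
          exact Subgroup.mem_zpowers _
      exact h3 hx
    rintro ⟨_, x, rfl⟩ ⟨_, y, rfl⟩
    apply Subtype.ext
    show π x * π y = π y * π x
    obtain ⟨k, hk⟩ := Subgroup.mem_zpowers_iff.1 (h2 x)
    obtain ⟨l, hl⟩ := Subgroup.mem_zpowers_iff.1 (h2 y)
    rw [← hk, ← hl, ← zpow_add, ← zpow_add, add_comm]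
  have h2 : Group.IsSolvable (π.comp (π.ker ⊔ Subgroup.zpowers g).subtype).range :=
    Group.isSolvable_of_comm h1
  refine Group.isSolvable_of_ker_le_range (Subgroup.inclusion
    (le_sup_left : π.ker ≤ π.ker ⊔ Subgroup.zpowers g))
    (π.comp (π.ker ⊔ Subgroup.zpowers g).subtype).rangeRestrict ?_
  intro x hx
  rw [MonoidHom.ker_rangeRestrict] at hx
  exact ⟨⟨x.1, hx⟩, rfl⟩

section gl

variable (n : ℕ)

/-- the map of general linear groups -/
def gm {A B : Type} [CommRing A] [CommRing B] (f : A →+* B) : GL (Fin n) A →* GL (Fin n) B :=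
  Units.map (f.mapMatrix : Matrix (Fin n) (Fin n) A →+* Matrix (Fin n) (Fin n) B).toMonoidHom

variable {A B : Type} [CommRing A] [CommRing B]

theorem gm_apply (f : A →+* B) (g : GL (Fin n) A) (i j : Fin n) :
    ((gm n f g : GL (Fin n) B) : Matrix (Fin n) (Fin n) B) i j =
      f ((g : Matrix (Fin n) (Fin n) A) i j) := rfl

theorem gm_injective {f : A →+* B} (hf : Function.Injective f) : Function.Injective (gm n f) := by
  intro g h hgh
  apply Units.ext
  ext i j
  have h1 := congrArg (fun x : GL (Fin n) B => (x : Matrix (Fin n) (Fin n) B) i j) hgh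
  have h2 : f ((g : Matrix (Fin n) (Fin n) A) i j) = f ((h : Matrix (Fin n) (Fin n) A) i j) := h1
  exact hf h2

theorem mem_gm_ker (f : A →+* B) (g : GL (Fin n) A) : g ∈ (gm n f).ker ↔
    ∀ i j, f (((g : Matrix (Fin n) (Fin n) A) - 1) i j) = 0 := by
  rw [MonoidHom.mem_ker]
  constructor
  · intro h i j
    have h1 := congrArg (fun x : GL (Fin n) B => (x : Matrix (Fin n) (Fin n) B) i j) h
    have h2 : f ((g : Matrix (Fin n) (Fin n) A) i j) = (1 : Matrix (Fin n) (Fin n) B) i j := h1
    rw [Matrix.sub_apply, map_sub, h2, Matrix.one_apply, Matrix.one_apply]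
    split_ifs
    · rw [map_one, sub_self]
    · rw [map_zero, sub_self]
  · intro h
    apply Units.ext
    ext i j
    rw [gm_apply]
    have h1 := h i j
    rw [Matrix.sub_apply, map_sub, sub_eq_zero] at h1
    rw [h1, Units.val_one, Matrix.one_apply, Matrix.one_apply]
    split_ifs
    · rw [map_one]
    · rw [map_zero]

/-- the congruence subgroup of an ideal -/
def cg (I : Ideal A) : Subgroup (GL (Fin n) A) := (gm n (Ideal.Quotient.mk I)).ker

theorem mem_cg {I : Ideal A} {g : GL (Fin n) A} : g ∈ cg n I ↔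
    ∀ i j, ((g : Matrix (Fin n) (Fin n) A) - 1) i j ∈ I := by
  unfold cg
  rw [mem_gm_ker]
  exact forall_congr' fun i => forall_congr' fun j => Ideal.Quotient.eq_zero_iff_mem

theorem cg_comm {I : Ideal A} {g h : GL (Fin n) A} (hg : g ∈ cg n I) (hh : h ∈ cg n I) :
    gm n (Ideal.Quotient.mk (I * I)) (g * h) = gm n (Ideal.Quotient.mk (I * I)) (h * g) := by
  rw [mem_cg] at hg hh
  apply Units.ext
  ext i j
  rw [gm_apply, gm_apply, Ideal.Quotient.eq, Units.val_mul, Units.val_mul, ← Matrix.sub_apply]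
  have h1 : (g : Matrix (Fin n) (Fin n) A) * (h : Matrix (Fin n) (Fin n) A) -
      (h : Matrix (Fin n) (Fin n) A) * (g : Matrix (Fin n) (Fin n) A) =
      ((g : Matrix (Fin n) (Fin n) A) - 1) * ((h : Matrix (Fin n) (Fin n) A) - 1) -
      ((h : Matrix (Fin n) (Fin n) A) - 1) * ((g : Matrix (Fin n) (Fin n) A) - 1) := by
    noncomm_ring
  rw [h1, Matrix.sub_apply, Matrix.mul_apply, Matrix.mul_apply]
  exact Ideal.sub_mem _ (Ideal.sum_mem _ fun k _ => Ideal.mul_mem_mul (hg i k) (hh k j))
    (Ideal.sum_mem _ fun k _ => Ideal.mul_mem_mul (hh i k) (hg k j))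

theorem cg_solvable (k : ℕ) : ∀ I : Ideal A, I ^ (2 ^ k) = ⊥ → Group.IsSolvable (cg n I) := by
  induction k with
  | zero =>
    intro I hI
    rw [pow_zero, pow_one] at hI
    apply Group.isSolvable_of_comm
    have h1 : ∀ x : cg n I, x = 1 := by
      rintro ⟨x, hx⟩
      rw [mem_cg, hI] at hx
      apply Subtype.ext
      apply Units.ext
      ext i j
      have h2 := hx i j
      rw [Ideal.mem_bot, Matrix.sub_apply, sub_eq_zero] at h2
      exact h2
    intro x y
    rw [h1 x, h1 y]
  | succ k ih =>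
    intro I hI
    have h1 : Group.IsSolvable (cg n (I * I)) := by
      apply ih
      rw [← hI, ← sq, ← pow_mul, pow_succ, mul_comm]
    have h2 : cg n (I * I) ≤ cg n I := by
      intro x hx
      rw [mem_cg] at hx ⊢
      exact fun i j => Ideal.mul_le_left (hx i j)
    have h3 : ∀ x y : ((gm n (Ideal.Quotient.mk (I * I))).comp (cg n I).subtype).range,
        x * y = y * x := by
      rintro ⟨_, x, rfl⟩ ⟨_, y, rfl⟩
      apply Subtype.ext
      have h4 := cg_comm n x.2 y.2
      rw [map_mul, map_mul] at h4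
      exact h4
    have h4 : Group.IsSolvable ((gm n (Ideal.Quotient.mk (I * I))).comp (cg n I).subtype).range :=
      Group.isSolvable_of_comm h3
    refine Group.isSolvable_of_ker_le_range (Subgroup.inclusion h2)
      ((gm n (Ideal.Quotient.mk (I * I))).comp (cg n I).subtype).rangeRestrict ?_
    intro x hx
    rw [MonoidHom.ker_rangeRestrict] at hx
    exact ⟨⟨x.1, hx⟩, rfl⟩

/-- Noetherian rings -/
theorem noeth (hC : ClosedE C) (hsol : ∀ (G : Type) [Group G], Group.IsSolvable G → C G)
    [IsNoetherianRing A] (h : ∀ q ∈ minimalPrimes A, C (GL (Fin n) (A ⧸ q))) :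
    C (GL (Fin n) A) := by
  classical
  have hfin := minimalPrimes.finite_of_isNoetherianRing A
  let _ : Fintype ↥(minimalPrimes A) := hfin.fintype
  let P : ↥(minimalPrimes A) → Type := fun q => GL (Fin n) (A ⧸ q.1)
  let _ : ∀ q, Group (P q) := fun q => (inferInstance : Group (GL (Fin n) (A ⧸ q.1)))
  have hP : C (∀ q, P q) := by
    refine hC.base.of_injective _ _ (MonoidHom.mk' (fun f => (⟨f, fun i hi =>
      absurd (Finset.mem_univ i) hi⟩ : Q30.FJ.fin_sup P Finset.univ)) ?_) ?_
      (Q30.FJ.fin_sup_mem hC.base (fun q => h q.1 q.2) Finset.univ)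
    · intro f g
      rfl
    · intro f g hfg
      exact congrArg Subtype.val hfg
  let π : GL (Fin n) A →* (∀ q, P q) :=
    MonoidHom.mk' (fun g q => gm n (Ideal.Quotient.mk q.1) g) (by
      intro g g'
      funext q
      exact map_mul (gm n (Ideal.Quotient.mk q.1)) g g')
  refine ext_sol hC hsol π ?_ hP
  obtain ⟨k, hk⟩ := IsNoetherianRing.isNilpotent_nilradical A
  have h1 : (nilradical A) ^ (2 ^ k) = ⊥ := by
    have h2 : k ≤ 2 ^ k := Nat.lt_two_pow_self.le
    have h3 := Ideal.pow_le_pow_right (I := nilradical A) h2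
    rw [hk] at h3
    exact le_bot_iff.1 h3
  have h2 : π.ker ≤ cg n (nilradical A) := by
    intro g hg
    rw [mem_cg]
    intro i j
    have h3 : nilradical A = sInf (minimalPrimes A) :=
      (Ideal.sInf_minimalPrimes (I := (⊥ : Ideal A))).symm
    rw [h3, Ideal.mem_sInf]
    intro q hq
    have h4 : gm n (Ideal.Quotient.mk q) g = 1 := congrFun ((MonoidHom.mem_ker).1 hg) ⟨q, hq⟩
    have h5 := (mem_gm_ker n (Ideal.Quotient.mk q) g).1 h4 i j
    exact Ideal.Quotient.eq_zero_iff_mem.1 h5
  have h3 := cg_solvable n k (nilradical A) h1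
  exact Group.isSolvable_of_isSolvable_injective (Subgroup.inclusion_injective h2)

/-- directed unions -/
theorem adj (hC : ClosedE C)
    (h : ∀ s : Finset A, C (GL (Fin n) (Algebra.adjoin ℤ (s : Set A)))) : C (GL (Fin n) A) := by
  classical
  have hmem : ∀ (s : Finset A) (g : GL (Fin n) A),
      g ∈ (gm n (Algebra.adjoin ℤ (s : Set A)).val.toRingHom).range ↔
      (∀ i j, (g : Matrix (Fin n) (Fin n) A) i j ∈ Algebra.adjoin ℤ (s : Set A)) ∧
      ∀ i j, (↑g⁻¹ : Matrix (Fin n) (Fin n) A) i j ∈ Algebra.adjoin ℤ (s : Set A) := by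
    intro s g
    constructor
    · rintro ⟨x, rfl⟩
      refine ⟨fun i j => ?_, fun i j => ?_⟩
      · rw [gm_apply]
        exact ((x : Matrix (Fin n) (Fin n) (Algebra.adjoin ℤ (s : Set A))) i j).2
      · rw [← map_inv, gm_apply]
        exact ((↑x⁻¹ : Matrix (Fin n) (Fin n) (Algebra.adjoin ℤ (s : Set A))) i j).2
    · rintro ⟨h1, h2⟩
      refine ⟨⟨fun i j => ⟨_, h1 i j⟩, fun i j => ⟨_, h2 i j⟩, ?_, ?_⟩, ?_⟩
      · ext i j
        have h3 : (g : Matrix (Fin n) (Fin n) A) * (↑g⁻¹ : Matrix (Fin n) (Fin n) A) = 1 :=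
          Units.mul_inv g
        have h4 := congrFun (congrFun h3 i) j
        rw [Matrix.mul_apply] at h4 ⊢
        rw [AddSubmonoidClass.coe_finsetSum]
        refine h4.trans ?_
        rw [Matrix.one_apply, Matrix.one_apply]
        split_ifs
        · rfl
        · rfl
      · ext i j
        have h3 : (↑g⁻¹ : Matrix (Fin n) (Fin n) A) * (g : Matrix (Fin n) (Fin n) A) = 1 :=
          Units.inv_mul g
        have h4 := congrFun (congrFun h3 i) j
        rw [Matrix.mul_apply] at h4 ⊢
        rw [AddSubmonoidClass.coe_finsetSum]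
        refine h4.trans ?_
        rw [Matrix.one_apply, Matrix.one_apply]
        split_ifs
        · rfl
        · rfl
      · apply Units.ext
        ext i j
        rfl
  refine Pool.Agent.Y430.SS.of_directed hC.base (GL (Fin n) A) (Finset A) (fun i j => ?_)
    (fun s => (gm n (Algebra.adjoin ℤ (s : Set A)).val.toRingHom).range) ?_ ?_ ?_
  · exact ⟨i ∪ j, Finset.subset_union_left, Finset.subset_union_right⟩
  · intro s t hst g hg
    rw [hmem] at hg ⊢
    have h1 : Algebra.adjoin ℤ (s : Set A) ≤ Algebra.adjoin ℤ (t : Set A) :=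
      Algebra.adjoin_mono (Finset.coe_subset.2 hst)
    exact ⟨fun i j => h1 (hg.1 i j), fun i j => h1 (hg.2 i j)⟩
  · intro g
    refine ⟨Finset.univ.image (fun p : Fin n × Fin n => (g : Matrix (Fin n) (Fin n) A) p.1 p.2) ∪
      Finset.univ.image (fun p : Fin n × Fin n => (↑g⁻¹ : Matrix (Fin n) (Fin n) A) p.1 p.2), ?_⟩
    rw [hmem]
    refine ⟨fun i j => ?_, fun i j => ?_⟩
    · apply Algebra.subset_adjoin
      rw [Finset.coe_union]
      left
      exact Finset.mem_coe.2 (Finset.mem_image.2 ⟨(i, j), Finset.mem_univ _, rfl⟩)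
    · apply Algebra.subset_adjoin
      rw [Finset.coe_union]
      right
      exact Finset.mem_coe.2 (Finset.mem_image.2 ⟨(i, j), Finset.mem_univ _, rfl⟩)
  · intro s
    have hinj : Function.Injective (gm n (Algebra.adjoin ℤ (s : Set A)).val.toRingHom) :=
      gm_injective n Subtype.val_injective
    exact hC.base.of_injective _ _ (MonoidHom.ofInjective hinj).symm.toMonoidHom
      (MonoidHom.ofInjective hinj).symm.injective (h s)

/-- **reduction to the quotients by the minimal prime ideals** -/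
theorem red (hC : ClosedE C) (hsol : ∀ (G : Type) [Group G], Group.IsSolvable G → C G)
    (h : ∀ q ∈ minimalPrimes A, C (GL (Fin n) (A ⧸ q))) : C (GL (Fin n) A) := by
  refine adj n hC fun s => ?_
  have : IsNoetherianRing (Algebra.adjoin ℤ (s : Set A)) := by
    have h1 : Algebra.FiniteType ℤ (Algebra.adjoin ℤ (s : Set A)) :=
      (Subalgebra.fg_iff_finiteType _).1 (Subalgebra.fg_adjoin_finset s)
    exact Algebra.FiniteType.isNoetherianRing ℤ _
  refine noeth n hC hsol fun p hp => ?_
  have hinj : Function.Injective (Algebra.adjoin ℤ (s : Set A)).val.toRingHom :=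
    Subtype.val_injective
  obtain ⟨q, hq, hqp⟩ := Ideal.exists_comap_eq_of_mem_minimalPrimes_of_injective hinj p hp
  obtain ⟨q', hq', hqq⟩ := Ideal.exists_minimalPrimes_le (bot_le : (⊥ : Ideal A) ≤ q)
  have hq'p : q'.IsPrime := hq'.1.1
  have h1 : q'.comap (Algebra.adjoin ℤ (s : Set A)).val.toRingHom ≤ p := by
    rw [← hqp]
    exact Ideal.comap_mono hqq
  have h2 : p ≤ q'.comap (Algebra.adjoin ℤ (s : Set A)).val.toRingHom :=
    hp.2 ⟨Ideal.IsPrime.comap _, bot_le⟩ h1
  exact hC.base.of_injective _ _ (gm n (Ideal.quotientMap q' _ h2))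
    (gm_injective n (Ideal.quotientMap_injective' h1)) (h q' hq')

end gl

end Q30.BT
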