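import Mathlib

/-!
# Contraction of subtrees in a tree with a parent function
-/

set_option autoImplicit false

namespace Q30.BT

/-- a graph given by a parent function is a tree -/
theorem isTree_of_parent {W : Type} (G : SimpleGraph W) (r : W) (P : W → W) (m : W → ℕ)
    (hm : ∀ X, X ≠ r → m (P X) < m X)
    (hadj : ∀ X Y, G.Adj X Y ↔ (X ≠ r ∧ Y = P X) ∨ (Y ≠ r ∧ X = P Y)) : G.IsTree := by
  have hreach : ∀ n : ℕ, ∀ X, m X ≤ n → G.Reachable X r := by
    intro n
    induction n with
    | zero =>
      intro X hX
      by_cases h : X = r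
      · rw [h]
      · have := hm X h
        omega
    | succ n ih =>
      intro X hX
      by_cases h : X = r
      · rw [h]
      · have h1 := hm X h
        have h2 : G.Adj X (P X) := (hadj _ _).2 (Or.inl ⟨h, rfl⟩)
        exact h2.reachable.trans (ih _ (by omega))
  have hne : Nonempty W := ⟨r⟩
  refine ⟨⟨fun X Y => (hreach _ X le_rfl).trans (hreach _ Y le_rfl).symm⟩, ?_⟩
  rw [SimpleGraph.isAcyclic_iff_forall_adj_isBridge]
  -- each edge from a vertex to its parent is a bridge
  have key : ∀ X, X ≠ r → G.IsBridge s(X, P X) := by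
    intro X hX
    rw [SimpleGraph.isBridge_iff]
    intro hr
    have hdesc : ∀ Y, (G \ SimpleGraph.fromEdgeSet {s(X, P X)}).Reachable X Y →
        ∃ k : ℕ, P^[k] Y = X ∧ ∀ i < k, P^[i] Y ≠ r := by
      intro Y hY
      obtain ⟨w⟩ := hY
      have hw : ∀ {Z Y : W} (w : (G \ SimpleGraph.fromEdgeSet {s(X, P X)}).Walk Z Y),
          (∃ k : ℕ, P^[k] Z = X ∧ ∀ i < k, P^[i] Z ≠ r) →
          ∃ k : ℕ, P^[k] Y = X ∧ ∀ i < k, P^[i] Y ≠ r := by
        intro Z Y w
        induction w with
        | nil => exact fun h => h
        | cons hadj' w ih =>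
          rename_i a b c
          intro h
          apply ih
          rw [SimpleGraph.sdiff_adj, SimpleGraph.fromEdgeSet_adj, hadj] at hadj'
          obtain ⟨h1, h2⟩ := hadj'
          obtain ⟨k, hk, hki⟩ := h
          rcases h1 with ⟨h3, h4⟩ | ⟨h3, h4⟩
          · cases k with
            | zero =>
              exfalso
              apply h2
              have h5 : a = X := hk
              have h6 := hm a h3
              refine ⟨?_, ?_⟩
              · rw [h4, h5]
                rfl
              · rintro rfl
                rw [← h4] at h6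
                exact lt_irrefl _ h6
            | succ k =>
              refine ⟨k, ?_, fun i hi => ?_⟩
              · rw [h4, ← Function.iterate_succ_apply]
                exact hk
              · have := hki (i + 1) (by omega)
                rwa [Function.iterate_succ_apply, ← h4] at this
          · refine ⟨k + 1, ?_, fun i hi => ?_⟩
            · rw [Function.iterate_succ_apply, ← h4]
              exact hk
            · cases i with
              | zero => exact h3
              | succ i =>
                rw [Function.iterate_succ_apply, ← h4]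
                exact hki i (by omega)
      exact hw w ⟨0, rfl, fun i hi => absurd hi (Nat.not_lt_zero _)⟩
    obtain ⟨k, hk, hki⟩ := hdesc _ hr
    have hle : ∀ k : ℕ, (∀ i < k, P^[i] (P X) ≠ r) → m (P^[k] (P X)) ≤ m (P X) := by
      intro k
      induction k with
      | zero => exact fun _ => le_rfl
      | succ k ih =>
        intro h
        have h1 := ih fun i hi => h i (by omega)
        have h2 := hm _ (h k (by omega))
        rw [Function.iterate_succ_apply']
        omega
    have h1 := hle k hki
    rw [hk] at h1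
    have := hm X hX
    omega
  intro X Y hXY
  rcases (hadj X Y).1 hXY with ⟨h1, rfl⟩ | ⟨h1, rfl⟩
  · exact key X h1
  · rw [Sym2.eq_swap]
    exact key Y h1

/-- the data for a contraction -/
structure Ctr {V : Type} (par : V → V) (r : Setoid V) (x0 : V) : Prop where
  closed : ∀ x, r x x0 → r (par x) x0
  reach : ∀ x, ∃ k : ℕ, r (par^[k] x) x0
  top : ∀ x y, r x y → ¬ r x x0 → ¬ r (par x) x → ¬ r (par y) y → x = y

namespace Ctr

variable {V : Type} {par : V → V} {r : Setoid V} {x0 : V} (h : Ctr par r x0)

open Classical in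
/-- the distance to the root -/
noncomputable def mu (x : V) : ℕ := Nat.find (h.reach x)

theorem mu_par {x : V} (hx : ¬ r x x0) : h.mu x = h.mu (par x) + 1 := by
  classical
  unfold mu
  apply le_antisymm
  · apply Nat.find_min'
    rw [Function.iterate_succ_apply]
    exact Nat.find_spec (h.reach (par x))
  · have h1 : Nat.find (h.reach x) ≠ 0 := by
      intro h0
      have h2 := Nat.find_spec (h.reach x)
      rw [h0] at h2
      exact hx h2
    obtain ⟨k, hk⟩ := Nat.exists_eq_succ_of_ne_zero h1
    have h2 := Nat.find_spec (h.reach x)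
    rw [hk, Function.iterate_succ_apply] at h2
    rw [hk]
    exact Nat.succ_le_succ (Nat.find_min' _ h2)

theorem exists_top : ∀ x, ¬ r x x0 → ∃ t, r t x ∧ ¬ r (par t) t ∧ h.mu t ≤ h.mu x := by
  have key : ∀ n : ℕ, ∀ x, h.mu x ≤ n → ¬ r x x0 →
      ∃ t, r t x ∧ ¬ r (par t) t ∧ h.mu t ≤ h.mu x := by
    intro n
    induction n with
    | zero =>
      intro x hx hr
      have := h.mu_par hr
      omega
    | succ n ih =>
      intro x hx hr
      by_cases h1 : r (par x) x
      · have h2 := h.mu_par hr
        obtain ⟨t, ht1, ht2, ht3⟩ := ih (par x) (by omega) (fun h3 => hr (r.trans (r.symm h1) h3))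
        exact ⟨t, r.trans ht1 h1, ht2, by omega⟩
      · exact ⟨x, r.refl x, h1, le_rfl⟩
  exact fun x => key _ x le_rfl

include h in
theorem not_root {x : V} (hx : ¬ r (par x) x) : ¬ r x x0 := fun h1 =>
  hx (r.trans (h.closed x h1) (r.symm h1))

include h in
/-- the edges of the contracted tree are edges of the tree -/
theorem edge_unique {x x' y y' : V} (hx : r x x') (hy : r y y') (hxy : ¬ r x y)
    (h1 : par x = y ∨ par y = x) (h2 : par x' = y' ∨ par y' = x') : x = x' ∧ y = y' := by
  have hxy' : ¬ r x' y' := fun h3 => hxy (r.trans hx (r.trans h3 (r.symm hy)))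
  have key : ∀ {x x' y y' : V}, r x x' → r y y' → ¬ r x y → ¬ r x' y' → par x = y → par x' = y' →
      x = x' ∧ y = y' := by
    intro x x' y y' hx hy hxy hxy' h1 h2
    have h3 : ¬ r (par x) x := by
      rw [h1]
      exact fun h4 => hxy (r.symm h4)
    have h4 : ¬ r (par x') x' := by
      rw [h2]
      exact fun h4 => hxy' (r.symm h4)
    have h5 := h.top x x' hx (h.not_root h3) h3 h4
    refine ⟨h5, ?_⟩
    rw [← h1, ← h2, h5]
  have key2 : ∀ {x x' y y' : V}, r x x' → r y y' → ¬ r x y → ¬ r x' y' → par x = y →
      par y' = x' → False := by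
    intro x x' y y' hx hy hxy hxy' h1 h2
    have h3 : ¬ r (par x) x := by
      rw [h1]
      exact fun h4 => hxy (r.symm h4)
    have h4 : ¬ r (par y') y' := by
      rw [h2]
      exact fun h4 => hxy' h4
    -- heights
    have hx0 := h.not_root h3
    have hy0 := h.not_root h4
    have a1 := h.mu_par hx0
    have a2 := h.mu_par hy0
    rw [h1] at a1
    rw [h2] at a2
    have hyr : ¬ r y x0 := fun h5 => hy0 (r.trans (r.symm hy) h5)
    have hxr : ¬ r x' x0 := fun h5 => hx0 (r.trans hx h5)
    obtain ⟨t, ht1, ht2, ht3⟩ := h.exists_top y hyr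
    obtain ⟨s, hs1, hs2, hs3⟩ := h.exists_top x' hxr
    have e1 : t = y' := h.top t y' (r.trans ht1 hy) (h.not_root ht2) ht2 h4
    have e2 : s = x := h.top s x (r.trans hs1 (r.symm hx)) (h.not_root hs2) hs2 h3
    rw [e1] at ht3
    rw [e2] at hs3
    omega
  rcases h1 with h1 | h1 <;> rcases h2 with h2 | h2
  · exact key hx hy hxy hxy' h1 h2
  · exact (key2 hx hy hxy hxy' h1 h2).elim
  · exact (key2 hy hx (fun h3 => hxy (r.symm h3)) (fun h3 => hxy' (r.symm h3)) h1 h2).elim
  · exact (key hy hx (fun h3 => hxy (r.symm h3)) (fun h3 => hxy' (r.symm h3)) h1 h2).symm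

/-- the contracted graph -/
def graph (par : V → V) (r : Setoid V) : SimpleGraph (Quotient r) where
  Adj X Y := X ≠ Y ∧ ∃ x y, Quotient.mk r x = X ∧ Quotient.mk r y = Y ∧ (par x = y ∨ par y = x)
  symm := ⟨by
    rintro X Y ⟨h1, x, y, hx, hy, h2⟩
    exact ⟨h1.symm, y, x, hy, hx, h2.symm⟩⟩
  loopless := ⟨fun X hX => hX.1 rfl⟩

include h in
theorem isTree : (graph par r).IsTree := by
  classical
  -- the top of a class
  have htop : ∀ X : Quotient r, ∃ t, X ≠ Quotient.mk r x0 → Quotient.mk r t = X ∧ ¬ r (par t) t := by
    intro X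
    by_cases hX : X = Quotient.mk r x0
    · exact ⟨x0, fun h1 => absurd hX h1⟩
    · have h1 : ¬ r X.out x0 := by
        intro h2
        apply hX
        rw [← Quotient.out_eq X]
        exact Quotient.sound h2
      obtain ⟨t, ht1, ht2, -⟩ := h.exists_top X.out h1
      refine ⟨t, fun _ => ⟨?_, ht2⟩⟩
      rw [← Quotient.out_eq X]
      exact Quotient.sound ht1
  choose top htop using htop
  have huniq : ∀ X : Quotient r, X ≠ Quotient.mk r x0 → ∀ t, Quotient.mk r t = X →
      ¬ r (par t) t → t = top X := by
    intro X hX t ht1 ht2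
    obtain ⟨h1, h2⟩ := htop X hX
    exact h.top _ _ (Quotient.exact (ht1.trans h1.symm)) (h.not_root ht2) ht2 h2
  refine isTree_of_parent _ (Quotient.mk r x0) (fun X => Quotient.mk r (par (top X)))
    (fun X => if X = Quotient.mk r x0 then 0 else h.mu (top X)) ?_ ?_
  · intro X hX
    obtain ⟨h1, h2⟩ := htop X hX
    have h3 := h.mu_par (h.not_root h2)
    show (if Quotient.mk r (par (top X)) = Quotient.mk r x0 then 0 else
      h.mu (top (Quotient.mk r (par (top X))))) < (if X = Quotient.mk r x0 then 0 else h.mu (top X))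
    rw [if_neg hX]
    split_ifs with h4
    · omega
    · have h5 : ¬ r (par (top X)) x0 := fun h6 => h4 (Quotient.sound h6)
      obtain ⟨t, ht1, ht2, ht3⟩ := h.exists_top _ h5
      rw [← huniq _ h4 t (Quotient.sound ht1) ht2]
      omega
  · intro X Y
    constructor
    · rintro ⟨h1, x, y, hx, hy, h2⟩
      rcases h2 with h2 | h2
      · left
        have h3 : ¬ r (par x) x := by
          intro h4
          apply h1
          rw [← hx, ← hy, ← h2]
          exact (Quotient.sound h4).symm
        have h4 : X ≠ Quotient.mk r x0 := by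
          intro h5
          exact h.not_root h3 (Quotient.exact (hx.trans h5))
        refine ⟨h4, ?_⟩
        rw [← huniq X h4 x hx h3, h2, hy]
      · right
        have h3 : ¬ r (par y) y := by
          intro h4
          apply h1
          rw [← hx, ← hy, ← h2]
          exact Quotient.sound h4
        have h4 : Y ≠ Quotient.mk r x0 := by
          intro h5
          exact h.not_root h3 (Quotient.exact (hy.trans h5))
        refine ⟨h4, ?_⟩
        rw [← huniq Y h4 y hy h3, h2, hx]
    · have key : ∀ X : Quotient r, X ≠ Quotient.mk r x0 →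
          (graph par r).Adj X (Quotient.mk r (par (top X))) := by
        intro X hX
        obtain ⟨h1, h2⟩ := htop X hX
        refine ⟨fun h3 => h2 ?_, top X, par (top X), h1, rfl, Or.inl rfl⟩
        exact Quotient.exact (h3.symm.trans h1.symm)
      rintro (⟨h1, rfl⟩ | ⟨h1, rfl⟩)
      · exact key X h1
      · exact (key Y h1).symm

end Ctr

end Q30.BT
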