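import Pool.Agent.Q30.FJ.Lin2

/-!
# Discrete valuations
-/

set_option autoImplicit false

namespace Q30.BT

/-- a discrete valuation on a field; the value at zero is not used -/
structure DV (K : Type) [Field K] where
  /-- the valuation -/
  v : K → ℤ
  mul : ∀ x y, x ≠ 0 → y ≠ 0 → v (x * y) = v x + v y
  add : ∀ x y m, (x = 0 ∨ m ≤ v x) → (y = 0 ∨ m ≤ v y) → (x + y = 0 ∨ m ≤ v (x + y))
  surj : ∃ t, t ≠ 0 ∧ v t = 1

namespace DV

variable {K : Type} [Field K] (D : DV K)

/-- the valuation is at least `m` -/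
def ge (x : K) (m : ℤ) : Prop := x = 0 ∨ m ≤ D.v x

theorem v_one : D.v 1 = 0 := by
  have h := D.mul 1 1 one_ne_zero one_ne_zero
  rw [mul_one] at h
  omega

theorem v_neg_one : D.v (-1) = 0 := by
  have h := D.mul (-1) (-1) (neg_ne_zero.2 one_ne_zero) (neg_ne_zero.2 one_ne_zero)
  rw [neg_one_mul, neg_neg, v_one] at h
  omega

theorem v_neg (x : K) : D.v (-x) = D.v x := by
  by_cases hx : x = 0
  · rw [hx, neg_zero]
  · rw [← neg_one_mul, D.mul _ _ (neg_ne_zero.2 one_ne_zero) hx, v_neg_one, zero_add]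

theorem v_inv {x : K} (hx : x ≠ 0) : D.v x⁻¹ = -D.v x := by
  have h := D.mul x x⁻¹ hx (inv_ne_zero hx)
  rw [mul_inv_cancel₀ hx, v_one] at h
  omega

theorem v_div {x y : K} (hx : x ≠ 0) (hy : y ≠ 0) : D.v (x / y) = D.v x - D.v y := by
  rw [div_eq_mul_inv, D.mul _ _ hx (inv_ne_zero hy), D.v_inv hy]
  ring

theorem surj' (m : ℤ) : ∃ t, t ≠ 0 ∧ D.v t = m := by
  obtain ⟨t, ht, hv⟩ := D.surj
  have hpow : ∀ k : ℕ, t ^ k ≠ 0 ∧ D.v (t ^ k) = k := by
    intro k
    induction k with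
    | zero => exact ⟨by simp, by simp [v_one]⟩
    | succ k ih =>
      refine ⟨pow_ne_zero _ ht, ?_⟩
      rw [pow_succ, D.mul _ _ ih.1 ht, ih.2, hv]
      push_cast
      ring
  rcases Int.eq_nat_or_neg m with ⟨k, rfl | rfl⟩
  · exact ⟨t ^ k, hpow k⟩
  · exact ⟨(t ^ k)⁻¹, inv_ne_zero (hpow k).1, by rw [D.v_inv (hpow k).1, (hpow k).2]⟩

variable {D} {x y : K} {m k : ℤ}

theorem ge_zero : D.ge 0 m := Or.inl rfl

theorem ge.mono (h : D.ge x m) (hk : k ≤ m) : D.ge x k := h.imp_right fun h => hk.trans h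

theorem ge.add (h : D.ge x m) (h' : D.ge y m) : D.ge (x + y) m := D.add x y m h h'

theorem ge.neg (h : D.ge x m) : D.ge (-x) m := by
  rcases h with rfl | h
  · left
    exact neg_zero
  · right
    rwa [v_neg]

theorem ge.sub (h : D.ge x m) (h' : D.ge y m) : D.ge (x - y) m := by
  rw [sub_eq_add_neg]
  exact h.add h'.neg

theorem ge.mul (h : D.ge x m) (h' : D.ge y k) : D.ge (x * y) (m + k) := by
  by_cases hx : x = 0
  · left
    rw [hx, zero_mul]
  · by_cases hy : y = 0
    · left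
      rw [hy, mul_zero]
    · right
      rw [D.mul _ _ hx hy]
      exact add_le_add (h.resolve_left hx) (h'.resolve_left hy)

theorem ge_mul_iff {p : K} (hp : p ≠ 0) : D.ge (p * x) m ↔ D.ge x (m - D.v p) := by
  by_cases hx : x = 0
  · rw [hx, mul_zero]
    exact ⟨fun _ => ge_zero, fun _ => ge_zero⟩
  · unfold ge
    rw [D.mul _ _ hp hx, mul_eq_zero]
    constructor
    · rintro ((h | h) | h)
      · exact absurd h hp
      · exact absurd h hx
      · right
        omega
    · rintro (h | h)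
      · exact absurd h hx
      · right
        omega

theorem ge_iff (hx : x ≠ 0) : D.ge x m ↔ m ≤ D.v x := ⟨fun h => h.resolve_left hx, Or.inr⟩

theorem ge_one : D.ge 1 0 := Or.inr (by rw [v_one])

/-- sums with a small term -/
theorem ge_add_iff (h : D.ge y m) : D.ge (x + y) m ↔ D.ge x m :=
  ⟨fun h' => by simpa using h'.sub h, fun h' => h'.add h⟩

end DV

end Q30.BT
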