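import Pool.Agent.Q30.BT.Dv

/-!
# The vertices of the tree of a discrete valuation
-/

set_option autoImplicit false

namespace Q30.BT

open Q30.FJ (V2 el)

variable {K : Type} [Field K] {D : DV K}

/-- the action on vectors, in coordinates -/
theorem smul_fst (g : GL (Fin 2) K) (w : V2 K) :
    (g • w).1 = (g : Matrix (Fin 2) (Fin 2) K) 0 0 * w.1 + (g : Matrix (Fin 2) (Fin 2) K) 0 1 * w.2 :=
  rfl

theorem smul_snd (g : GL (Fin 2) K) (w : V2 K) :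
    (g • w).2 = (g : Matrix (Fin 2) (Fin 2) K) 1 0 * w.1 + (g : Matrix (Fin 2) (Fin 2) K) 1 1 * w.2 :=
  rfl

variable (D) in
/-- the lattice of a ball -/
def Lt (a : K) (n : ℤ) : Set (V2 K) :=
  {w | D.ge (w.1 - a * w.2) ((n + 1) / 2) ∧ D.ge w.2 (-(n / 2))}

theorem mem_Lt {a : K} {n : ℤ} {w : V2 K} :
    w ∈ Lt D a n ↔ D.ge (w.1 - a * w.2) ((n + 1) / 2) ∧ D.ge w.2 (-(n / 2)) := Iff.rfl

/-- membership of a lattice given by two linear forms -/
theorem mem_iff_A {p1 p2 q1 q2 : K} {c d : ℤ} (hp : p1 ≠ 0) (hd : p1 * q2 - p2 * q1 ≠ 0)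
    (hv : D.v (p1 * q2 - p2 * q1) = 0) (hq : D.ge q1 (D.v p1 - c - d)) (w : V2 K) :
    (D.ge (p1 * w.1 + p2 * w.2) c ∧ D.ge (q1 * w.1 + q2 * w.2) (-d)) ↔
    (D.ge (w.1 - -p2 / p1 * w.2) (c - D.v p1) ∧ D.ge w.2 (-(d - D.v p1))) := by
  have h1 : p1 * w.1 + p2 * w.2 = p1 * (w.1 - -p2 / p1 * w.2) := by
    field_simp
    ring
  rw [h1, DV.ge_mul_iff hp]
  constructor
  · rintro ⟨h2, h3⟩
    refine ⟨h2, ?_⟩
    have h4 : q1 * w.1 + q2 * w.2 = (p1 * q2 - p2 * q1) / p1 * w.2 +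
        q1 * (w.1 - -p2 / p1 * w.2) := by
      field_simp
      ring
    have h5 : D.ge (q1 * (w.1 - -p2 / p1 * w.2)) (-d) := (hq.mul h2).mono (by omega)
    rw [h4, DV.ge_add_iff h5, DV.ge_mul_iff (div_ne_zero hd hp), D.v_div hd hp, hv] at h3
    exact h3.mono (by omega)
  · rintro ⟨h2, h3⟩
    refine ⟨h2, ?_⟩
    have h4 : q1 * w.1 + q2 * w.2 = (p1 * q2 - p2 * q1) / p1 * w.2 +
        q1 * (w.1 - -p2 / p1 * w.2) := by
      field_simp
      ring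
    have h5 : D.ge (q1 * (w.1 - -p2 / p1 * w.2)) (-d) := (hq.mul h2).mono (by omega)
    rw [h4, DV.ge_add_iff h5, DV.ge_mul_iff (div_ne_zero hd hp), D.v_div hd hp, hv]
    exact h3.mono (by omega)

theorem mem_iff_B {p1 p2 q1 q2 : K} {c d : ℤ} (hq : q1 ≠ 0) (hd : p1 * q2 - p2 * q1 ≠ 0)
    (hv : D.v (p1 * q2 - p2 * q1) = 0) (hp : D.ge p1 (D.v q1 + c + d)) (w : V2 K) :
    (D.ge (p1 * w.1 + p2 * w.2) c ∧ D.ge (q1 * w.1 + q2 * w.2) (-d)) ↔
    (D.ge (w.1 - -q2 / q1 * w.2) (-d - D.v q1) ∧ D.ge w.2 (-(-c - D.v q1))) := by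
  have h1 : q1 * w.1 + q2 * w.2 = q1 * (w.1 - -q2 / q1 * w.2) := by
    field_simp
    ring
  have h4 : p1 * w.1 + p2 * w.2 = -(p1 * q2 - p2 * q1) / q1 * w.2 +
      p1 * (w.1 - -q2 / q1 * w.2) := by
    field_simp
    ring
  rw [h1, DV.ge_mul_iff hq]
  have hnd : -(p1 * q2 - p2 * q1) ≠ 0 := neg_ne_zero.2 hd
  constructor
  · rintro ⟨h3, h2⟩
    refine ⟨h2, ?_⟩
    have h5 : D.ge (p1 * (w.1 - -q2 / q1 * w.2)) c := (hp.mul h2).mono (by omega)
    rw [h4, DV.ge_add_iff h5, DV.ge_mul_iff (div_ne_zero hnd hq), D.v_div hnd hq, D.v_neg,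
      hv] at h3
    exact h3.mono (by omega)
  · rintro ⟨h2, h3⟩
    refine ⟨?_, h2⟩
    have h5 : D.ge (p1 * (w.1 - -q2 / q1 * w.2)) c := (hp.mul h2).mono (by omega)
    rw [h4, DV.ge_add_iff h5, DV.ge_mul_iff (div_ne_zero hnd hq), D.v_div hnd hq, D.v_neg, hv]
    exact h3.mono (by omega)

/-- the preimage of a lattice -/
theorem pre_Lt (h : GL (Fin 2) K) (hv : D.v (h : Matrix (Fin 2) (Fin 2) K).det = 0) (a : K)
    (n : ℤ) : ∃ a' n', 2 ∣ n' - n ∧ {w : V2 K | h • w ∈ Lt D a n} = Lt D a' n' := by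
  obtain ⟨M, hM⟩ : ∃ M, M = (h : Matrix (Fin 2) (Fin 2) K) := ⟨_, rfl⟩
  have hdet0 : M.det ≠ 0 := by
    rw [hM]
    exact ((Matrix.isUnit_iff_isUnit_det _).1 h.isUnit).ne_zero
  rw [← hM] at hv
  rw [Matrix.det_fin_two] at hv hdet0
  obtain ⟨p1, hp1⟩ : ∃ p1, p1 = M 0 0 - a * M 1 0 := ⟨_, rfl⟩
  obtain ⟨p2, hp2⟩ : ∃ p2, p2 = M 0 1 - a * M 1 1 := ⟨_, rfl⟩
  obtain ⟨q1, hq1⟩ : ∃ q1, q1 = M 1 0 := ⟨_, rfl⟩
  obtain ⟨q2, hq2⟩ : ∃ q2, q2 = M 1 1 := ⟨_, rfl⟩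
  have hδ : p1 * q2 - p2 * q1 = M 0 0 * M 1 1 - M 0 1 * M 1 0 := by
    rw [hp1, hp2, hq1, hq2]
    ring
  have hmem : ∀ w : V2 K, h • w ∈ Lt D a n ↔ (D.ge (p1 * w.1 + p2 * w.2) ((n + 1) / 2) ∧
      D.ge (q1 * w.1 + q2 * w.2) (-(n / 2))) := by
    intro w
    rw [mem_Lt, smul_fst, smul_snd, ← hM]
    have e1 : M 0 0 * w.1 + M 0 1 * w.2 - a * (M 1 0 * w.1 + M 1 1 * w.2) =
        p1 * w.1 + p2 * w.2 := by
      rw [hp1, hp2]
      ring
    rw [e1, hq1, hq2]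
  rw [← hδ] at hv hdet0
  by_cases hA : p1 ≠ 0 ∧ D.ge q1 (D.v p1 - (n + 1) / 2 - n / 2)
  · refine ⟨-p2 / p1, n - 2 * D.v p1, by omega, ?_⟩
    ext w
    rw [Set.mem_ofPred_eq, hmem, mem_iff_A hA.1 hdet0 hv hA.2, mem_Lt]
    have e1 : (n - 2 * D.v p1 + 1) / 2 = (n + 1) / 2 - D.v p1 := by omega
    have e2 : (n - 2 * D.v p1) / 2 = n / 2 - D.v p1 := by omega
    rw [e1, e2]
  · have hq0 : q1 ≠ 0 := by
      rintro h0
      apply hA
      refine ⟨?_, Or.inl h0⟩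
      rintro h1
      rw [h0, h1] at hdet0
      simp at hdet0
    have hp : D.ge p1 (D.v q1 + (n + 1) / 2 + n / 2) := by
      by_cases h0 : p1 = 0
      · exact Or.inl h0
      · right
        have h1 : ¬ D.ge q1 (D.v p1 - (n + 1) / 2 - n / 2) := fun h => hA ⟨h0, h⟩
        rw [DV.ge_iff hq0] at h1
        omega
    refine ⟨-q2 / q1, -n - 2 * D.v q1, by omega, ?_⟩
    ext w
    rw [Set.mem_ofPred_eq, hmem, mem_iff_B hq0 hdet0 hv hp, mem_Lt]
    have e1 : (-n - 2 * D.v q1 + 1) / 2 = -(n / 2) - D.v q1 := by omega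
    have e2 : (-n - 2 * D.v q1) / 2 = -((n + 1) / 2) - D.v q1 := by omega
    rw [e1, e2]

/-- inclusions of lattices -/
theorem Lt_le {a b : K} {j n : ℤ} : Lt D b j ⊆ Lt D a n ↔ (n + 1) / 2 ≤ (j + 1) / 2 ∧
    j / 2 ≤ n / 2 ∧ D.ge (b - a) ((n + 1) / 2 + j / 2) := by
  constructor
  · intro h
    refine ⟨?_, ?_, ?_⟩
    · obtain ⟨t, ht, hv⟩ := D.surj' ((j + 1) / 2)
      have h1 : ((t, 0) : K × K) ∈ Lt D b j := by
        refine ⟨?_, DV.ge_zero⟩
        show D.ge (t - b * 0) _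
        rw [mul_zero, sub_zero, DV.ge_iff ht, hv]
      have h2 : D.ge (t - a * 0) ((n + 1) / 2) := (h h1).1
      rwa [mul_zero, sub_zero, DV.ge_iff ht, hv] at h2
    · obtain ⟨t, ht, hv⟩ := D.surj' (-(j / 2))
      have h1 : ((b * t, t) : K × K) ∈ Lt D b j := by
        refine ⟨?_, ?_⟩
        · show D.ge (b * t - b * t) _
          rw [sub_self]
          exact DV.ge_zero
        · show D.ge t _
          rw [DV.ge_iff ht, hv]
      have h2 : D.ge t (-(n / 2)) := (h h1).2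
      rw [DV.ge_iff ht, hv] at h2
      omega
    · obtain ⟨t, ht, hv⟩ := D.surj' (-(j / 2))
      have h1 : ((b * t, t) : K × K) ∈ Lt D b j := by
        refine ⟨?_, ?_⟩
        · show D.ge (b * t - b * t) _
          rw [sub_self]
          exact DV.ge_zero
        · show D.ge t _
          rw [DV.ge_iff ht, hv]
      have h2 : D.ge (b * t - a * t) ((n + 1) / 2) := (h h1).1
      have h3 : b * t - a * t = t * (b - a) := by ring
      rw [h3, DV.ge_mul_iff ht, hv] at h2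
      exact h2.mono (by omega)
  · rintro ⟨h1, h2, h3⟩ w ⟨hw1, hw2⟩
    refine ⟨?_, hw2.mono (by omega)⟩
    have e1 : w.1 - a * w.2 = (w.1 - b * w.2) + (b - a) * w.2 := by ring
    rw [e1]
    exact (hw1.mono h1).add ((h3.mul hw2).mono (by omega))

theorem Lt_eq {a b : K} {j n : ℤ} : Lt D b j = Lt D a n ↔ j = n ∧ D.ge (b - a) n := by
  constructor
  · intro h
    have h1 := Lt_le.1 h.subset
    have h2 := Lt_le.1 h.symm.subset
    have h3 : j = n := by omega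
    exact ⟨h3, h1.2.2.mono (by omega)⟩
  · rintro ⟨rfl, h⟩
    apply Set.Subset.antisymm
    · exact Lt_le.2 ⟨le_rfl, le_rfl, h.mono (by omega)⟩
    · refine Lt_le.2 ⟨le_rfl, le_rfl, ?_⟩
      rw [← neg_sub]
      exact (h.mono (by omega)).neg

variable (D) in
/-- the vertices -/
def Vx : Type := {S : Set (V2 K) // ∃ a n, S = Lt D a n}

variable (D) in
/-- the vertex of a ball -/
def mkV (a : K) (n : ℤ) : Vx D := ⟨Lt D a n, a, n, rfl⟩

/-- the center -/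
noncomputable def cen (x : Vx D) : K := x.2.choose

/-- the radius -/
noncomputable def rad (x : Vx D) : ℤ := x.2.choose_spec.choose

theorem eq_mkV (x : Vx D) : x = mkV D (cen x) (rad x) :=
  Subtype.ext x.2.choose_spec.choose_spec

theorem mkV_eq {a b : K} {j n : ℤ} : mkV D b j = mkV D a n ↔ j = n ∧ D.ge (b - a) n := by
  rw [← Lt_eq]
  exact ⟨fun h => congrArg Subtype.val h, fun h => Subtype.ext h⟩

theorem rad_mkV (a : K) (n : ℤ) : rad (mkV D a n) = n :=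
  (mkV_eq.1 (eq_mkV (mkV D a n))).1.symm

theorem cen_mkV (a : K) (n : ℤ) : D.ge (cen (mkV D a n) - a) n := by
  have h := (mkV_eq.1 (eq_mkV (mkV D a n))).2
  rw [rad_mkV] at h
  rw [← neg_sub]
  exact h.neg

/-- the parent -/
noncomputable def par (x : Vx D) : Vx D := mkV D (cen x) (rad x - 1)

theorem par_mkV (a : K) (n : ℤ) : par (mkV D a n) = mkV D a (n - 1) := by
  unfold par
  rw [rad_mkV, mkV_eq]
  exact ⟨rfl, (cen_mkV a n).mono (by omega)⟩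

theorem rad_par (x : Vx D) : rad (par x) = rad x - 1 := rad_mkV _ _

theorem par_iter (a : K) (n : ℤ) (k : ℕ) : par^[k] (mkV D a n) = mkV D a (n - k) := by
  induction k with
  | zero => simp
  | succ k ih =>
    rw [Function.iterate_succ_apply', ih, par_mkV]
    congr 1
    push_cast
    ring

/-- comparable vertices -/
theorem comp_iff {x y : Vx D} : (x ≠ y ∧ (x.1 ⊆ y.1 ∨ y.1 ⊆ x.1)) ↔ (par x = y ∨ par y = x) := by
  have key : ∀ a b : K, ∀ j n : ℤ, Lt D b j ⊆ Lt D a n → mkV D b j ≠ mkV D a n →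
      par (mkV D a n) = mkV D b j ∨ par (mkV D b j) = mkV D a n := by
    intro a b j n h hne
    rw [Ne, mkV_eq] at hne
    obtain ⟨h1, h2, h3⟩ := Lt_le.1 h
    rw [par_mkV, par_mkV, mkV_eq, mkV_eq]
    have h4 : j = n - 1 ∨ j = n ∨ j = n + 1 := by omega
    rcases h4 with h4 | h4 | h4
    · left
      refine ⟨h4.symm, ?_⟩
      rw [← neg_sub]
      exact (h3.mono (by omega)).neg
    · exact absurd ⟨h4, h3.mono (by omega)⟩ hne
    · right
      exact ⟨by omega, h3.mono (by omega)⟩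
  have key2 : ∀ a : K, ∀ n : ℤ, Lt D a n ⊆ Lt D a (n - 1) ∨ Lt D a (n - 1) ⊆ Lt D a n := by
    intro a n
    rw [Lt_le, Lt_le, sub_self]
    by_cases h : (n - 1) / 2 = n / 2
    · left
      exact ⟨by omega, by omega, DV.ge_zero⟩
    · right
      exact ⟨by omega, by omega, DV.ge_zero⟩
  have hxe := eq_mkV x
  have hye := eq_mkV y
  obtain ⟨a, ha⟩ : ∃ a, a = cen x := ⟨_, rfl⟩
  obtain ⟨n, hn⟩ : ∃ n, n = rad x := ⟨_, rfl⟩
  obtain ⟨b, hb⟩ : ∃ b, b = cen y := ⟨_, rfl⟩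
  obtain ⟨j, hj⟩ : ∃ j, j = rad y := ⟨_, rfl⟩
  rw [← ha, ← hn] at hxe
  rw [← hb, ← hj] at hye
  subst hxe hye
  constructor
  · rintro ⟨h1, h2 | h2⟩
    · exact (key b a n j h2 h1).symm
    · exact key a b j n h2 (Ne.symm h1)
  · rintro (h | h)
    · rw [← h]
      refine ⟨fun h1 => ?_, ?_⟩
      · have h2 := congrArg rad h1
        rw [rad_par] at h2
        omega
      · rw [par_mkV]
        exact key2 a n
    · rw [← h]
      refine ⟨fun h1 => ?_, ?_⟩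
      · have h2 := congrArg rad h1
        rw [rad_par] at h2
        omega
      · rw [par_mkV]
        exact (key2 b j).symm

end Q30.BT
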