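import Pool.Agent.Q30.BT.Uni
import Pool.Agent.Q30.BT.Ctr
import Pool.Agent.Q9.FJT.TreeA

/-!
# Groups acting on the tree of a discrete valuation whose bounded kernel elements are unipotent
-/

set_option autoImplicit false

namespace Q30.BT

open Q30.FJ (V2 el)
open Pool.Agent.Y110.FJ (ClosedE)

variable {K : Type} [Field K] {D : DV K}

section act

variable {Γ : Type} [Group Γ] (j : Γ →* GL (Fin 2) K)

theorem det_inv {g : GL (Fin 2) K} (h : D.v (g : Matrix (Fin 2) (Fin 2) K).det = 0) :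
    D.v (↑g⁻¹ : Matrix (Fin 2) (Fin 2) K).det = 0 := by
  have h1 : (g : Matrix (Fin 2) (Fin 2) K) * (↑g⁻¹ : Matrix (Fin 2) (Fin 2) K) = 1 :=
    Units.mul_inv g
  have h2 := congrArg Matrix.det h1
  rw [Matrix.det_mul, Matrix.det_one] at h2
  have h3 : (g : Matrix (Fin 2) (Fin 2) K).det ≠ 0 := fun h0 => by
    rw [h0, zero_mul] at h2
    exact zero_ne_one h2
  have h4 : (↑g⁻¹ : Matrix (Fin 2) (Fin 2) K).det ≠ 0 := fun h0 => by
    rw [h0, mul_zero] at h2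
    exact zero_ne_one h2
  have h5 := D.mul _ _ h3 h4
  rw [h2, D.v_one, h] at h5
  omega

/-- the action on the vertices -/
@[reducible] def vact (hdet : ∀ γ, D.v (j γ : Matrix (Fin 2) (Fin 2) K).det = 0) :
    MulAction Γ (Vx D) where
  smul γ x := ⟨{w | (j γ)⁻¹ • w ∈ x.1}, by
    obtain ⟨a, n, hx⟩ := x.2
    obtain ⟨a', n', -, h⟩ := pre_Lt (j γ)⁻¹ (det_inv (hdet γ)) a n
    exact ⟨a', n', by rw [hx, h]⟩⟩
  one_smul x := by
    apply Subtype.ext
    show {w | (j 1)⁻¹ • w ∈ x.1} = x.1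
    ext w
    rw [Set.mem_ofPred_eq, map_one, inv_one, one_smul]
  mul_smul γ δ x := by
    apply Subtype.ext
    show {w | (j (γ * δ))⁻¹ • w ∈ x.1} = {w | (j δ)⁻¹ • ((j γ)⁻¹ • w) ∈ x.1}
    ext w
    rw [Set.mem_ofPred_eq, Set.mem_ofPred_eq, map_mul, mul_inv_rev, mul_smul]

end act

section main

variable {Γ : Type} [Group Γ] {j : Γ →* GL (Fin 2) K}
  (hdet : ∀ γ, D.v (j γ : Matrix (Fin 2) (Fin 2) K).det = 0) (N : Subgroup Γ)

theorem mem_vact (γ : Γ) (x : Vx D) (w : V2 K) :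
    w ∈ ((vact j hdet).smul γ x).1 ↔ (j γ)⁻¹ • w ∈ x.1 := Iff.rfl

theorem vact_eq {γ : Γ} {x : Vx D} : (vact j hdet).smul γ x = x ↔ Fx (j γ) x := by
  constructor
  · intro h w
    have h1 : j γ • w ∈ ((vact j hdet).smul γ x).1 ↔ j γ • w ∈ x.1 := by rw [h]
    rw [mem_vact, inv_smul_smul] at h1
    exact h1.symm
  · intro h
    apply Subtype.ext
    ext w
    rw [mem_vact, ← h, smul_inv_smul]

/-- the relation of being in the same horoball -/
def rel (j : Γ →* GL (Fin 2) K) (N : Subgroup Γ) (x y : Vx D) : Prop :=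
  x = y ∨ ∃ w : V2 K, Nz w ∧ (∃ u ∈ N, u ≠ 1 ∧ Fx (j u) x ∧ j u • w = w) ∧
    ∃ u ∈ N, u ≠ 1 ∧ Fx (j u) y ∧ j u • w = w

/-- the assumptions -/
structure Hyp (D : DV K) (j : Γ →* GL (Fin 2) K) (N : Subgroup Γ) (u0 : Γ) (s0 : K) : Prop where
  inj : Function.Injective j
  det : ∀ γ, D.v (j γ : Matrix (Fin 2) (Fin 2) K).det = 0
  uni : ∀ n ∈ N, ∀ x : Vx D, Fx (j n) x → IsU (j n)
  mem : u0 ∈ N
  ent : Ent (j u0) (mk2 (1 : K) 0) s0
  ne : s0 ≠ 0

variable {N} {u0 : Γ} {s0 : K} (h : Hyp D j N u0 s0)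

include h

theorem Hyp.j_ne {u : Γ} (hu : u ≠ 1) : j u ≠ 1 := fun h1 =>
  hu (h.inj (h1.trans (map_one j).symm))

theorem Hyp.u0_ne : u0 ≠ 1 := by
  rintro rfl
  have h1 := h.ent.2.1
  rw [map_one] at h1
  have h2 : (0 : K) = -(s0 * (1 * 1)) := h1
  apply h.ne
  linear_combination h2

/-- two elements of the kernel which stabilize a vertex fix the same vectors -/
theorem Hyp.share {x : Vx D} {u u' : Γ} (hu : u ∈ N) (hu' : u' ∈ N) (h1 : u ≠ 1) (h1' : u' ≠ 1)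
    (hf : Fx (j u) x) (hf' : Fx (j u') x) {w w' : V2 K} (hw : Nz w) (hw' : Nz w')
    (hj : j u • w = w) (hj' : j u' • w' = w') : j u • w' = w' := by
  have h2 := h.uni u hu x hf
  have h3 := h.uni u' hu' x hf'
  have h4 : IsU (j u * j u') := by
    rw [← map_mul]
    apply h.uni _ (N.mul_mem hu hu') x
    rw [map_mul]
    exact hf.mul hf'
  have h5 := Q30.BT.share h2 h3 (h.j_ne h1) (h.j_ne h1') h4 hw hw' hj hj'
  obtain ⟨s, hs⟩ := h2.ent hw hj
  apply hs.fix_of_pl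
  have h5' : w.1 * w'.2 = w.2 * w'.1 := h5
  show w'.1 * w.2 = w'.2 * w.1
  linear_combination -h5'

theorem Hyp.rel_trans {x y z : Vx D} (h1 : rel j N x y) (h2 : rel j N y z) : rel j N x z := by
  rcases h1 with rfl | ⟨w, hw, ⟨u1, hu1, n1, f1, g1⟩, u2, hu2, n2, f2, g2⟩
  · exact h2
  rcases h2 with rfl | ⟨w', hw', ⟨u3, hu3, n3, f3, g3⟩, u4, hu4, n4, f4, g4⟩
  · exact Or.inr ⟨w, hw, ⟨u1, hu1, n1, f1, g1⟩, u2, hu2, n2, f2, g2⟩
  · right
    refine ⟨w, hw, ⟨u1, hu1, n1, f1, g1⟩, u4, hu4, n4, f4, ?_⟩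
    -- `w` and `w'` are parallel
    have e1 := h.share hu2 hu3 n2 n3 f2 f3 hw hw' g2 g3
    have i2 := h.uni u2 hu2 y f2
    obtain ⟨s, hs⟩ := i2.ent hw g2
    obtain ⟨s', hs'⟩ := i2.ent hw' e1
    have i4 := h.uni u4 hu4 z f4
    obtain ⟨t, ht⟩ := i4.ent hw' g4
    apply ht.fix_of_pl
    have h3 : IsU (j u2 * j u3) := by
      rw [← map_mul]
      apply h.uni _ (N.mul_mem hu2 hu3) y
      rw [map_mul]
      exact f2.mul f3
    exact Q30.BT.share i2 (h.uni u3 hu3 y f3) (h.j_ne n2) (h.j_ne n3) h3 hw hw' g2 g3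

theorem Hyp.rel_symm {x y : Vx D} (h1 : rel j N x y) : rel j N y x := by
  rcases h1 with rfl | ⟨w, hw, h1, h2⟩
  · exact Or.inl rfl
  · exact Or.inr ⟨w, hw, h2, h1⟩

/-- the equivalence relation -/
@[reducible] def Hyp.setoid : Setoid (Vx D) where
  r := rel j N
  iseqv := ⟨fun _ => Or.inl rfl, h.rel_symm, h.rel_trans⟩

/-- a vector which is not vertical fixed by a unipotent matrix -/
theorem Hyp.ent_inf {u : Γ} (hu : u ∈ N) {x : Vx D} (hf : Fx (j u) x) {w : V2 K} (hw : Nz w)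
    (hj : j u • w = w) (hw2 : w.2 = 0) : ∃ s, Ent (j u) (mk2 (1 : K) 0) s := by
  have h1 := h.uni u hu x hf
  obtain ⟨s, hs⟩ := h1.ent hw hj
  have h2 : j u • (mk2 (1 : K) 0) = (mk2 (1 : K) 0) := by
    apply hs.fix_of_pl
    show (1 : K) * w.2 = 0 * w.1
    rw [hw2]
    ring
  exact h1.ent (Or.inl one_ne_zero) h2

theorem Hyp.ent_fin {u : Γ} (hu : u ∈ N) {x : Vx D} (hf : Fx (j u) x) {w : V2 K} (hw : Nz w)
    (hj : j u • w = w) (hw2 : w.2 ≠ 0) : ∃ s, Ent (j u) (mk2 (w.1 / w.2) 1) s := by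
  have h1 := h.uni u hu x hf
  obtain ⟨s, hs⟩ := h1.ent hw hj
  have h2 : j u • (mk2 (w.1 / w.2) 1) = (mk2 (w.1 / w.2) 1) := by
    apply hs.fix_of_pl
    show w.1 / w.2 * w.2 = 1 * w.1
    rw [div_mul_cancel₀ _ hw2, one_mul]
  exact h1.ent (Or.inr one_ne_zero) h2

/-- the root -/
def Hyp.root (_ : Hyp D j N u0 s0) : Vx D := mkV D 0 (D.v s0)

theorem Hyp.fix_u0 {b : K} {n : ℤ} (hn : n ≤ D.v s0) : Fx (j u0) (mkV D b n) :=
  (fix_inf h.ent b n).2 (Or.inr hn)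

theorem Hyp.rel_root_of {x : Vx D} {u : Γ} (hu : u ∈ N) (h1 : u ≠ 1) (hf : Fx (j u) x) {s : K}
    (hs : Ent (j u) (mk2 (1 : K) 0) s) : rel j N x h.root := by
  right
  refine ⟨(mk2 (1 : K) 0), Or.inl one_ne_zero, ⟨u, hu, h1, hf, ?_⟩, u0, h.mem, h.u0_ne,
    h.fix_u0 le_rfl, ?_⟩
  · apply hs.fix_of_pl
    show (1 : K) * 0 = 0 * 1
    ring
  · apply h.ent.fix_of_pl
    show (1 : K) * 0 = 0 * 1
    ring

theorem Hyp.ctr : Ctr par h.setoid h.root := by
  constructor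
  · intro x hx
    have hxe := eq_mkV x
    obtain ⟨a, ha⟩ : ∃ a, a = cen x := ⟨_, rfl⟩
    obtain ⟨n, hn⟩ : ∃ n, n = rad x := ⟨_, rfl⟩
    rw [← ha, ← hn] at hxe
    subst hxe
    rw [par_mkV]
    have hx' : rel j N (mkV D a n) h.root := hx
    rcases hx' with hx' | ⟨w, hw, ⟨u, hu, n1, f1, g1⟩, u', hu', n2, f2, g2⟩
    · have h1 : n = D.v s0 := (mkV_eq.1 hx').1
      exact h.rel_root_of h.mem h.u0_ne (h.fix_u0 (by omega)) h.ent
    · -- the direction is vertical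
      have h3 : j u0 • (mk2 (1 : K) 0) = (mk2 (1 : K) 0) := by
        apply h.ent.fix_of_pl
        show (1 : K) * 0 = 0 * 1
        ring
      have h4 := h.share hu' h.mem n2 h.u0_ne f2 (h.fix_u0 le_rfl) hw (Or.inl one_ne_zero) g2 h3
      have i2 := h.uni u' hu' _ f2
      have i5 : IsU (j u' * j u0) := by
        rw [← map_mul]
        apply h.uni _ (N.mul_mem hu' h.mem) h.root
        rw [map_mul]
        exact f2.mul (h.fix_u0 le_rfl)
      have h5 := Q30.BT.share i2 (h.uni u0 h.mem h.root (h.fix_u0 le_rfl)) (h.j_ne n2)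
        (h.j_ne h.u0_ne) i5 hw (w' := (mk2 (1 : K) 0)) (Or.inl one_ne_zero) g2 h3
      have h6 : w.1 * 0 = w.2 * 1 := h5
      have hw2 : w.2 = 0 := by linear_combination -h6
      obtain ⟨s, hs⟩ := h.ent_inf hu f1 hw g1 hw2
      have h7 := (fix_inf hs a n).1 f1
      exact h.rel_root_of hu n1 ((fix_inf hs a (n - 1)).2 (h7.mono (by omega))) hs
  · intro x
    rw [eq_mkV x]
    refine ⟨(rad x - D.v s0).toNat, ?_⟩
    rw [par_iter]
    exact h.rel_root_of h.mem h.u0_ne (h.fix_u0 (by omega)) h.ent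
  · intro x y hxy hx0 hx hy
    have hxe := eq_mkV x
    obtain ⟨b, hb⟩ : ∃ b, b = cen x := ⟨_, rfl⟩
    obtain ⟨n, hn⟩ : ∃ n, n = rad x := ⟨_, rfl⟩
    rw [← hb, ← hn] at hxe
    subst hxe
    have hye := eq_mkV y
    obtain ⟨b', hb'⟩ : ∃ b', b' = cen y := ⟨_, rfl⟩
    obtain ⟨n', hn'⟩ : ∃ n', n' = rad y := ⟨_, rfl⟩
    rw [← hb', ← hn'] at hye
    subst hye
    have hxy' : rel j N (mkV D b n) (mkV D b' n') := hxy
    rcases hxy' with hxy' | ⟨w, hw, ⟨u, hu, n1, f1, g1⟩, u', hu', n2, f2, g2⟩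
    · exact hxy'
    by_cases hw2 : w.2 = 0
    · exfalso
      obtain ⟨s, hs⟩ := h.ent_inf hu f1 hw g1 hw2
      exact hx0 (h.rel_root_of hu n1 f1 hs)
    · obtain ⟨s, hs⟩ := h.ent_fin hu f1 hw g1 hw2
      obtain ⟨s', hs'⟩ := h.ent_fin hu' f2 hw g2 hw2
      obtain ⟨a, ha⟩ : ∃ a, a = w.1 / w.2 := ⟨_, rfl⟩
      rw [← ha] at hs hs'
      have hwa : Nz (mk2 a 1) := Or.inr one_ne_zero
      have hga : ∀ {v : Γ} {t : K}, Ent (j v) (mk2 a 1) t →
          j v • (mk2 a 1) = (mk2 a 1) := by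
        intro v t ht
        apply ht.fix_of_pl
        show a * 1 = 1 * a
        ring
      -- tops of horoballs
      have key : ∀ {u : Γ} {s b : K} {n : ℤ}, u ∈ N → u ≠ 1 → Ent (j u) (mk2 a 1) s →
          Fx (j u) (mkV D b n) → ¬ rel j N (par (mkV D b n)) (mkV D b n) →
          n = -D.v s ∧ mkV D b n = mkV D a n := by
        intro u s b n hu hu1 hs hf hr
        have hs0 : s ≠ 0 := hs.ne (h.j_ne hu1)
        obtain ⟨h1, h2⟩ := (fix_fin hs b n).1 hf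
        rw [DV.ge_iff hs0] at h1
        have h3 : ¬ (-D.v s ≤ n - 1) := by
          intro h3
          apply hr
          rw [par_mkV]
          right
          refine ⟨_, hwa, ⟨u, hu, hu1, ?_, hga hs⟩, u, hu, hu1, hf, hga hs⟩
          rw [fix_fin hs]
          exact ⟨Or.inr (by omega), h2.mono (by omega)⟩
        have h4 : n = -D.v s := by omega
        refine ⟨h4, ?_⟩
        rw [mkV_eq]
        refine ⟨rfl, ?_⟩
        by_cases h5 : b - a = 0
        · exact Or.inl h5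
        · right
          have h6 := h2.resolve_left (mul_ne_zero (mul_ne_zero h5 h5) hs0)
          rw [D.mul _ _ (mul_ne_zero h5 h5) hs0, D.mul _ _ h5 h5] at h6
          omega
      obtain ⟨k1, k2⟩ := key hu n1 hs f1 hx
      obtain ⟨k3, k4⟩ := key hu' n2 hs' f2 hy
      have hs0 : s ≠ 0 := hs.ne (h.j_ne n1)
      have hs0' : s' ≠ 0 := hs'.ne (h.j_ne n2)
      -- the two heights are equal
      have key2 : ∀ {u : Γ} {s : K} {n n' : ℤ}, u ∈ N → u ≠ 1 → Ent (j u) (mk2 a 1) s →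
          n = -D.v s → n < n' → rel j N (par (mkV D a n')) (mkV D a n') := by
        intro u s n n' hu hu1 hs hn hlt
        rw [par_mkV]
        right
        refine ⟨_, hwa, ⟨u, hu, hu1, ?_, hga hs⟩, u, hu, hu1, ?_, hga hs⟩
        · rw [fix_fin hs, sub_self, mul_zero, zero_mul]
          exact ⟨Or.inr (by omega), DV.ge_zero⟩
        · rw [fix_fin hs, sub_self, mul_zero, zero_mul]
          exact ⟨Or.inr (by omega), DV.ge_zero⟩
      rcases lt_trichotomy n n' with hlt | heq | hlt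
      · exfalso
        have h1 := key2 hu n1 hs k1 hlt
        rw [← k4] at h1
        exact hy h1
      · rw [k2, k4, heq]
      · exfalso
        have h1 := key2 hu' n2 hs' k3 hlt
        rw [← k2] at h1
        exact hx h1

end main

end Q30.BT
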