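import Pool.Agent.Q30.BT.Main

/-!
# The main theorem on groups acting on the tree of a discrete valuation
-/

set_option autoImplicit false

namespace Q30.BT

open Q30.FJ (V2 el)
open Pool.Agent.Y110.FJ (ClosedE)

variable {C : ∀ (G : Type) [Group G], Prop}

section act

variable {K : Type} [Field K] {D : DV K} {Γ : Type} [Group Γ] {j : Γ →* GL (Fin 2) K}
  {N : Subgroup Γ} {u0 : Γ} {s0 : K} (h : Hyp D j N u0 s0)

/-- translates of vertices -/
def Hyp.tr (γ : Γ) (x : Vx D) : Vx D := (vact j h.det).smul γ x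

theorem Hyp.mem_tr (γ : Γ) (x : Vx D) (w : V2 K) : w ∈ (h.tr γ x).1 ↔ (j γ)⁻¹ • w ∈ x.1 := Iff.rfl

theorem Hyp.tr_one (x : Vx D) : h.tr 1 x = x := (vact j h.det).one_smul x

theorem Hyp.tr_mul (γ δ : Γ) (x : Vx D) : h.tr (γ * δ) x = h.tr γ (h.tr δ x) :=
  (vact j h.det).mul_smul γ δ x

theorem Hyp.tr_eq {γ : Γ} {x : Vx D} : h.tr γ x = x ↔ Fx (j γ) x := vact_eq h.det

theorem Hyp.tr_inj {γ : Γ} {x y : Vx D} (hxy : h.tr γ x = h.tr γ y) : x = y := by
  rw [← h.tr_one x, ← inv_mul_cancel γ, h.tr_mul, hxy, ← h.tr_mul, inv_mul_cancel, h.tr_one]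

theorem Hyp.tr_rad (γ : Γ) (x : Vx D) : 2 ∣ rad (h.tr γ x) - rad x := by
  have hx := eq_mkV x
  obtain ⟨a, ha⟩ : ∃ a, a = cen x := ⟨_, rfl⟩
  obtain ⟨n, hn⟩ : ∃ n, n = rad x := ⟨_, rfl⟩
  rw [← ha, ← hn] at hx
  subst hx
  obtain ⟨a', n', h1, h2⟩ := pre_Lt (j γ)⁻¹ (det_inv (h.det γ)) a n
  have h3 : h.tr γ (mkV D a n) = mkV D a' n' := Subtype.ext h2
  rw [h3, rad_mkV, rad_mkV]
  exact h1

theorem Hyp.tr_adj {γ : Γ} {x y : Vx D} (hxy : par x = y ∨ par y = x) :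
    par (h.tr γ x) = h.tr γ y ∨ par (h.tr γ y) = h.tr γ x := by
  rw [← comp_iff] at hxy ⊢
  obtain ⟨h1, h2⟩ := hxy
  refine ⟨fun h3 => h1 (h.tr_inj h3), ?_⟩
  rcases h2 with h2 | h2
  · exact Or.inl fun w hw => h2 hw
  · exact Or.inr fun w hw => h2 hw

theorem Hyp.tr_fx {γ u : Γ} {x : Vx D} (hu : Fx (j u) x) : Fx (j (γ * u * γ⁻¹)) (h.tr γ x) := by
  intro w
  rw [h.mem_tr, h.mem_tr]
  have : (j γ)⁻¹ • j (γ * u * γ⁻¹) • w = j u • (j γ)⁻¹ • w := by
    rw [← mul_smul, ← mul_smul]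
    congr 1
    rw [map_mul, map_mul, map_inv]
    group
  rw [this, hu]

theorem Nz.smul {g : GL (Fin 2) K} {w : V2 K} (hw : Nz w) : Nz (g • w) := by
  by_contra hc
  unfold Nz at hc
  push Not at hc
  have h1 : g • w = mk2 (0 : K) 0 := V2.ext hc.1 hc.2
  have h2 : w = g⁻¹ • mk2 (0 : K) 0 := by rw [← h1, inv_smul_smul]
  have h3 : g⁻¹ • mk2 (0 : K) 0 = mk2 (0 : K) 0 := by
    apply V2.ext
    · rw [smul_fst]
      show _ * (0 : K) + _ * (0 : K) = 0
      ring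
    · rw [smul_snd]
      show _ * (0 : K) + _ * (0 : K) = 0
      ring
  rw [h3] at h2
  rcases hw with hw | hw
  · exact hw (congrArg Prod.fst h2)
  · exact hw (congrArg Prod.snd h2)

theorem Hyp.tr_rel [N.Normal] {γ : Γ} {x y : Vx D} (hxy : rel j N x y) :
    rel j N (h.tr γ x) (h.tr γ y) := by
  rcases hxy with rfl | ⟨w, hw, ⟨u1, hu1, n1, f1, g1⟩, u2, hu2, n2, f2, g2⟩
  · exact Or.inl rfl
  · right
    have key : ∀ {u : Γ} {x : Vx D}, u ∈ N → u ≠ 1 → Fx (j u) x → j u • w = w →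
        ∃ v ∈ N, v ≠ 1 ∧ Fx (j v) (h.tr γ x) ∧ j v • (j γ • w) = j γ • w := by
      intro u x hu hu1 hf hg
      refine ⟨γ * u * γ⁻¹, Subgroup.Normal.conj_mem inferInstance u hu γ, fun h1 => hu1 ?_,
        h.tr_fx hf, ?_⟩
      · have h2 : u = γ⁻¹ * (γ * u * γ⁻¹) * γ := by group
        rw [h2, h1]
        group
      · rw [← mul_smul, ← map_mul, inv_mul_cancel_right, map_mul, mul_smul, hg]
    exact ⟨j γ • w, hw.smul, key hu1 n1 f1 g1, key hu2 n2 f2 g2⟩

/-- the action on the classes -/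
@[reducible] def Hyp.qact [N.Normal] : MulAction Γ (Quotient h.setoid) where
  smul γ := Quotient.map (h.tr γ) fun _ _ hxy => h.tr_rel hxy
  one_smul X := by
    refine Quotient.inductionOn X fun x => ?_
    exact congrArg (Quotient.mk h.setoid) (h.tr_one x)
  mul_smul γ δ X := by
    refine Quotient.inductionOn X fun x => ?_
    exact congrArg (Quotient.mk h.setoid) (h.tr_mul γ δ x)

theorem Hyp.qact_mk [N.Normal] (γ : Γ) (x : Vx D) :
    h.qact.smul γ (Quotient.mk h.setoid x) = Quotient.mk h.setoid (h.tr γ x) := rfl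

/-- stabilizers of horoballs -/
theorem Hyp.pl_of_rel [N.Normal] {γ : Γ} {x : Vx D} (hr : rel j N (h.tr γ x) x) {u : Γ} (hu : u ∈ N)
    (hu1 : u ≠ 1) (hf : Fx (j u) x) {w : V2 K} (hw : Nz w) (hg : j u • w = w) :
    Pl (j γ • w) w := by
  -- `γ u γ⁻¹` stabilizes the translate and fixes `γ w`
  have hv : γ * u * γ⁻¹ ∈ N := Subgroup.Normal.conj_mem inferInstance u hu γ
  have hv1 : γ * u * γ⁻¹ ≠ 1 := by
    intro h1
    apply hu1
    have h2 : u = γ⁻¹ * (γ * u * γ⁻¹) * γ := by group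
    rw [h2, h1]
    group
  have hvf := h.tr_fx (γ := γ) hf
  have hvg : j (γ * u * γ⁻¹) • (j γ • w) = j γ • w := by
    rw [← mul_smul, ← map_mul, inv_mul_cancel_right, map_mul, mul_smul, hg]
  have key : ∀ {u v : Γ} {x : Vx D} {w w' : V2 K}, u ∈ N → v ∈ N → u ≠ 1 → v ≠ 1 → Fx (j u) x →
      Fx (j v) x → Nz w → Nz w' → j u • w = w → j v • w' = w' → Pl w w' := by
    intro u v x w w' hu hv hu1 hv1 hf hf' hw hw' hg hg'
    have h3 : IsU (j u * j v) := by
      rw [← map_mul]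
      apply h.uni _ (N.mul_mem hu hv) x
      rw [map_mul]
      exact hf.mul hf'
    exact Q30.BT.share (h.uni u hu x hf) (h.uni v hv x hf') (h.j_ne hu1) (h.j_ne hv1) h3 hw hw'
      hg hg'
  rcases hr with hr | ⟨w', hw', ⟨u1, hu1', n1, f1, g1⟩, u2, hu2, n2, f2, g2⟩
  · rw [hr] at hvf
    exact key hv hu hv1 hu1 hvf hf hw.smul hw hvg hg
  · have h1 := key hv hu1' hv1 n1 hvf f1 hw.smul hw' hvg g1
    have h2 := key hu2 hu n2 hu1 f2 hf hw' hw g2 hg
    -- transitivity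
    have h1' : (j γ • w).1 * w'.2 = (j γ • w).2 * w'.1 := h1
    have h2' : w'.1 * w.2 = w'.2 * w.1 := h2
    show (j γ • w).1 * w.2 = (j γ • w).2 * w.1
    rcases hw' with h3 | h3
    · apply mul_left_cancel₀ h3
      linear_combination (j γ • w).1 * h2' + w.1 * h1'
    · apply mul_left_cancel₀ h3
      linear_combination w.2 * h1' + (j γ • w).2 * h2'

end act

section borel

variable {K : Type} [Field K] {S : Type} [Group S] (i : S →* GL (Fin 2) K) {w : V2 K}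

/-- groups of matrices with a common eigenvector are solvable -/
theorem solvable_of_pl (hi : Function.Injective i) (hw : Nz w) (hp : ∀ s, Pl (i s • w) w) :
    Group.IsSolvable S := by
  -- the eigenvalue
  have hev : ∀ s, ∃ c : K, (i s • w).1 = c * w.1 ∧ (i s • w).2 = c * w.2 := by
    intro s
    have h1 : (i s • w).1 * w.2 = (i s • w).2 * w.1 := hp s
    rcases hw with h2 | h2
    · refine ⟨(i s • w).1 / w.1, ?_, ?_⟩
      · field_simp
      · field_simp
        linear_combination -h1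
    · refine ⟨(i s • w).2 / w.2, ?_, ?_⟩
      · field_simp
        linear_combination h1
      · field_simp
  choose c hc1 hc2 using hev
  have hlin1 : ∀ s t, (i (s * t) • w).1 = c t * (i s • w).1 := by
    intro s t
    rw [map_mul, mul_smul, smul_fst, hc1, hc2, smul_fst]
    ring
  have hlin2 : ∀ s t, (i (s * t) • w).2 = c t * (i s • w).2 := by
    intro s t
    rw [map_mul, mul_smul, smul_snd, hc1, hc2, smul_snd]
    ring
  have hcm : ∀ s t, c (s * t) = c s * c t := by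
    intro s t
    have h1 := hlin1 s t
    have h2 := hlin2 s t
    rw [hc1, hc1] at h1
    rw [hc2, hc2] at h2
    rcases hw with h3 | h3
    · apply mul_right_cancel₀ h3
      linear_combination h1
    · apply mul_right_cancel₀ h3
      linear_combination h2
  have hc1' : c 1 = 1 := by
    have h1 := hc1 1
    have h2 := hc2 1
    rw [map_one, one_smul] at h1 h2
    rcases hw with h3 | h3
    · apply mul_right_cancel₀ h3
      rw [← h1, one_mul]
    · apply mul_right_cancel₀ h3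
      rw [← h2, one_mul]
  let f : S →* K × K :=
    { toFun := fun s => (c s, (i s : Matrix (Fin 2) (Fin 2) K).det)
      map_one' := by
        rw [hc1', map_one, Units.val_one, Matrix.det_one]
        rfl
      map_mul' := fun s t => by
        rw [hcm, map_mul, Units.val_mul, Matrix.det_mul]
        rfl }
  let F : S →* (K × K)ˣ := f.toHomUnits
  have hker : ∀ s, s ∈ F.ker → i s • w = w ∧ (i s : Matrix (Fin 2) (Fin 2) K).det = 1 := by
    intro s hs
    have h1 : f s = 1 := congrArg Units.val ((MonoidHom.mem_ker).1 hs)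
    have h2 : c s = 1 := congrArg Prod.fst h1
    have h3 : (i s : Matrix (Fin 2) (Fin 2) K).det = 1 := congrArg Prod.snd h1
    refine ⟨V2.ext ?_ ?_, h3⟩
    · rw [hc1, h2, one_mul]
    · rw [hc2, h2, one_mul]
  -- the kernel consists of unipotent matrices
  have hU : ∀ s, s ∈ F.ker → IsU (i s) := by
    intro s hs
    obtain ⟨h1, h2⟩ := hker s hs
    rw [Matrix.det_fin_two] at h2
    have e1 : (i s : Matrix (Fin 2) (Fin 2) K) 0 0 * w.1 +
      (i s : Matrix (Fin 2) (Fin 2) K) 0 1 * w.2 = w.1 := congrArg Prod.fst h1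
    have e2 : (i s : Matrix (Fin 2) (Fin 2) K) 1 0 * w.1 +
      (i s : Matrix (Fin 2) (Fin 2) K) 1 1 * w.2 = w.2 := congrArg Prod.snd h1
    refine ⟨?_, h2⟩
    obtain ⟨a, ha⟩ : ∃ a, a = (i s : Matrix (Fin 2) (Fin 2) K) 0 0 := ⟨_, rfl⟩
    obtain ⟨b, hb⟩ : ∃ b, b = (i s : Matrix (Fin 2) (Fin 2) K) 0 1 := ⟨_, rfl⟩
    obtain ⟨c, hc⟩ : ∃ c, c = (i s : Matrix (Fin 2) (Fin 2) K) 1 0 := ⟨_, rfl⟩
    obtain ⟨d, hd⟩ : ∃ d, d = (i s : Matrix (Fin 2) (Fin 2) K) 1 1 := ⟨_, rfl⟩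
    rw [← ha, ← hb, ← hc, ← hd] at h2
    rw [← ha, ← hb] at e1
    rw [← hc, ← hd] at e2
    rw [← ha, ← hd]
    rcases hw with h3 | h3
    · apply mul_left_cancel₀ h3
      linear_combination e1 - d * e1 + b * e2 + w.1 * h2
    · apply mul_left_cancel₀ h3
      linear_combination e2 - a * e2 + c * e1 + w.2 * h2
  have hcomm : ∀ s t : F.ker, s * t = t * s := by
    intro s t
    apply Subtype.ext
    apply hi
    show i (s * t : S) = i (t * s : S)
    rw [map_mul, map_mul]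
    obtain ⟨a, ha⟩ := (hU s s.2).ent hw (hker s s.2).1
    obtain ⟨b, hb⟩ := (hU t t.2).ent hw (hker t t.2).1
    obtain ⟨a1, a2, a3, a4⟩ := ha
    obtain ⟨b1, b2, b3, b4⟩ := hb
    apply Units.ext
    refine Matrix.ext fun k l => ?_
    rw [Units.val_mul, Units.val_mul, Matrix.mul_apply, Matrix.mul_apply, Fin.sum_univ_two,
      Fin.sum_univ_two]
    fin_cases k <;> fin_cases l
    · show (i s : Matrix (Fin 2) (Fin 2) K) 0 0 * (i t : Matrix (Fin 2) (Fin 2) K) 0 0 +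
        (i s : Matrix (Fin 2) (Fin 2) K) 0 1 * (i t : Matrix (Fin 2) (Fin 2) K) 1 0 =
        (i t : Matrix (Fin 2) (Fin 2) K) 0 0 * (i s : Matrix (Fin 2) (Fin 2) K) 0 0 +
        (i t : Matrix (Fin 2) (Fin 2) K) 0 1 * (i s : Matrix (Fin 2) (Fin 2) K) 1 0
      rw [a1, a2, a3, b1, b2, b3]
      ring
    · show (i s : Matrix (Fin 2) (Fin 2) K) 0 0 * (i t : Matrix (Fin 2) (Fin 2) K) 0 1 +
        (i s : Matrix (Fin 2) (Fin 2) K) 0 1 * (i t : Matrix (Fin 2) (Fin 2) K) 1 1 =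
        (i t : Matrix (Fin 2) (Fin 2) K) 0 0 * (i s : Matrix (Fin 2) (Fin 2) K) 0 1 +
        (i t : Matrix (Fin 2) (Fin 2) K) 0 1 * (i s : Matrix (Fin 2) (Fin 2) K) 1 1
      rw [a1, a2, a4, b1, b2, b4]
      ring
    · show (i s : Matrix (Fin 2) (Fin 2) K) 1 0 * (i t : Matrix (Fin 2) (Fin 2) K) 0 0 +
        (i s : Matrix (Fin 2) (Fin 2) K) 1 1 * (i t : Matrix (Fin 2) (Fin 2) K) 1 0 =
        (i t : Matrix (Fin 2) (Fin 2) K) 1 0 * (i s : Matrix (Fin 2) (Fin 2) K) 0 0 +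
        (i t : Matrix (Fin 2) (Fin 2) K) 1 1 * (i s : Matrix (Fin 2) (Fin 2) K) 1 0
      rw [a1, a3, a4, b1, b3, b4]
      ring
    · show (i s : Matrix (Fin 2) (Fin 2) K) 1 0 * (i t : Matrix (Fin 2) (Fin 2) K) 0 1 +
        (i s : Matrix (Fin 2) (Fin 2) K) 1 1 * (i t : Matrix (Fin 2) (Fin 2) K) 1 1 =
        (i t : Matrix (Fin 2) (Fin 2) K) 1 0 * (i s : Matrix (Fin 2) (Fin 2) K) 0 1 +
        (i t : Matrix (Fin 2) (Fin 2) K) 1 1 * (i s : Matrix (Fin 2) (Fin 2) K) 1 1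
      rw [a2, a3, a4, b2, b3, b4]
      ring
  have h1 : Group.IsSolvable F.ker := isSolvable_of_comm hcomm
  exact solvable_of_ker_le_range F.ker.subtype F (by rw [Subgroup.range_subtype])

end borel

/-- **main theorem** -/
theorem Hyp.main (hC : ClosedE C) (hsol : ∀ (G : Type) [Group G], Group.IsSolvable G → C G)
    {K : Type} [Field K] {D : DV K} {Γ : Type} [Group Γ] {j : Γ →* GL (Fin 2) K}
    {N : Subgroup Γ} [N.Normal] {u0 : Γ} {s0 : K} (h : Hyp D j N u0 s0) (hQ : C (Γ ⧸ N)) : C Γ := by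
  letI := h.qact
  have hsm : ∀ (γ : Γ) (x : Vx D), γ • (Quotient.mk h.setoid x) = Quotient.mk h.setoid (h.tr γ x) :=
    h.qact_mk
  refine Q9.FJT.tree_edge (QuotientGroup.mk' N) hC hQ h.ctr.isTree ?_ ?_ ?_ ?_
  · -- adjacency
    rintro γ X Y ⟨h1, x, y, rfl, rfl, h2⟩
    refine ⟨fun h3 => h1 ?_, h.tr γ x, h.tr γ y, hsm γ x, hsm γ y, h.tr_adj h2⟩
    exact smul_left_cancel γ h3
  · -- no inversions
    rintro γ X Y ⟨h1, x, y, rfl, rfl, h2⟩ ⟨h3, h4⟩
    have h5 : rel j N x (h.tr γ y) := h.rel_symm (Quotient.exact h4)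
    have h6 : rel j N y (h.tr γ x) := h.rel_symm (Quotient.exact h3)
    have h7 : ¬ rel j N x y := fun h8 => h1 (Quotient.sound h8)
    obtain ⟨h8, h9⟩ := h.ctr.edge_unique (r := h.setoid) h5 h6 h7 h2 (h.tr_adj h2.symm)
    have h10 := h.tr_rad γ x
    rw [← h9] at h10
    rcases h2 with h2 | h2
    · rw [← h2, rad_par] at h10
      omega
    · rw [← h2, rad_par] at h10
      omega
  · -- edges
    rintro γ X Y ⟨h1, x, y, rfl, rfl, h2⟩ h3 h4 h5
    have h6 : rel j N x (h.tr γ x) := h.rel_symm (Quotient.exact h3)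
    have h7 : rel j N y (h.tr γ y) := h.rel_symm (Quotient.exact h4)
    have h8 : ¬ rel j N x y := fun h9 => h1 (Quotient.sound h9)
    obtain ⟨h9, h10⟩ := h.ctr.edge_unique (r := h.setoid) h6 h7 h8 h2 (h.tr_adj h2)
    by_contra hγ
    have hN : γ ∈ N := by
      have h11 : (QuotientGroup.mk' N) γ = 1 := h5
      rwa [QuotientGroup.mk'_apply, QuotientGroup.eq_one_iff] at h11
    have f1 := h.tr_eq.1 h9.symm
    have f2 := h.tr_eq.1 h10.symm
    obtain ⟨w, hw, hg⟩ := (h.uni γ hN x f1).exists_fix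
    exact h8 (Or.inr ⟨w, hw, ⟨γ, hN, hγ, f1, hg⟩, γ, hN, hγ, f2, hg⟩)
  · -- vertices
    intro X
    obtain ⟨x, rfl⟩ := Quotient.exists_rep X
    have hst : ∀ γ : MulAction.stabilizer Γ (Quotient.mk h.setoid x), rel j N (h.tr γ x) x :=
      fun γ => Quotient.exact γ.2
    by_cases hx : ∃ u ∈ N, u ≠ 1 ∧ Fx (j u) x
    · obtain ⟨u, hu, hu1, hf⟩ := hx
      obtain ⟨w, hw, hg⟩ := (h.uni u hu x hf).exists_fix
      apply hsol
      refine solvable_of_pl (j.comp (Subgroup.subtype _)) (fun a b hab =>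
        Subtype.ext (h.inj hab)) hw fun γ => ?_
      exact h.pl_of_rel (hst γ) hu hu1 hf hw hg
    · refine hC.base.of_injective _ _ ((QuotientGroup.mk' N).comp (Subgroup.subtype _)) ?_ hQ
      rw [injective_iff_map_eq_one]
      intro γ hγ
      have hN : (γ : Γ) ∈ N := by
        have h11 : (QuotientGroup.mk' N) (γ : Γ) = 1 := hγ
        rwa [QuotientGroup.mk'_apply, QuotientGroup.eq_one_iff] at h11
      by_contra hne
      apply hx
      refine ⟨γ, hN, fun h1 => hne (Subtype.ext h1), ?_⟩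
      rcases hst γ with h1 | ⟨w', hw', h1, u2, hu2, n2, f2, g2⟩
      · exact h.tr_eq.1 h1
      · exact absurd ⟨u2, hu2, n2, f2⟩ hx

end Q30.BT
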