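import Pool.Agent.Q30.BT.Lat

/-!
# Unipotent matrices and their fixed vertices
-/

set_option autoImplicit false

namespace Q30.BT

open Q30.FJ (V2 el)

variable {K : Type} [Field K] {D : DV K}

/-- unipotent matrices -/
def IsU (g : GL (Fin 2) K) : Prop :=
  (g : Matrix (Fin 2) (Fin 2) K) 0 0 + (g : Matrix (Fin 2) (Fin 2) K) 1 1 = 2 ∧
  (g : Matrix (Fin 2) (Fin 2) K) 0 0 * (g : Matrix (Fin 2) (Fin 2) K) 1 1 -
  (g : Matrix (Fin 2) (Fin 2) K) 0 1 * (g : Matrix (Fin 2) (Fin 2) K) 1 0 = 1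

/-- the zero vector is not allowed -/
def Nz (w : V2 K) : Prop := w.1 ≠ 0 ∨ w.2 ≠ 0

/-- parallel vectors -/
def Pl (w w' : V2 K) : Prop := w.1 * w'.2 = w.2 * w'.1

theorem V2.ext {K : Type} {w w' : V2 K} (h1 : w.1 = w'.1) (h2 : w.2 = w'.2) : w = w' := Prod.ext h1 h2

/-- a vector -/
def mk2 (x y : K) : V2 K := (x, y)

/-- the entries of a unipotent matrix fixing `w` -/
def Ent (g : GL (Fin 2) K) (w : V2 K) (s : K) : Prop :=
  (g : Matrix (Fin 2) (Fin 2) K) 0 0 = 1 + s * (w.1 * w.2) ∧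
  (g : Matrix (Fin 2) (Fin 2) K) 0 1 = -(s * (w.1 * w.1)) ∧
  (g : Matrix (Fin 2) (Fin 2) K) 1 0 = s * (w.2 * w.2) ∧
  (g : Matrix (Fin 2) (Fin 2) K) 1 1 = 1 - s * (w.1 * w.2)

theorem IsU.ent {g : GL (Fin 2) K} (h : IsU g) {w : V2 K} (hw : Nz w) (hg : g • w = w) :
    ∃ s, Ent g w s := by
  obtain ⟨ht, hd⟩ := h
  have h1 : (g : Matrix (Fin 2) (Fin 2) K) 0 0 * w.1 + (g : Matrix (Fin 2) (Fin 2) K) 0 1 * w.2 =
    w.1 := congrArg Prod.fst hg
  have h2 : (g : Matrix (Fin 2) (Fin 2) K) 1 0 * w.1 + (g : Matrix (Fin 2) (Fin 2) K) 1 1 * w.2 =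
    w.2 := congrArg Prod.snd hg
  unfold Ent
  obtain ⟨a, ha⟩ : ∃ a, a = (g : Matrix (Fin 2) (Fin 2) K) 0 0 := ⟨_, rfl⟩
  obtain ⟨b, hb⟩ : ∃ b, b = (g : Matrix (Fin 2) (Fin 2) K) 0 1 := ⟨_, rfl⟩
  obtain ⟨c, hc⟩ : ∃ c, c = (g : Matrix (Fin 2) (Fin 2) K) 1 0 := ⟨_, rfl⟩
  obtain ⟨d, hdd⟩ : ∃ d, d = (g : Matrix (Fin 2) (Fin 2) K) 1 1 := ⟨_, rfl⟩
  rw [← ha, ← hb] at h1
  rw [← hc, ← hdd] at h2
  rw [← ha, ← hdd] at ht
  rw [← ha, ← hb, ← hc, ← hdd] at hd
  rw [← ha, ← hb, ← hc, ← hdd]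
  have hd2 : d = 2 - a := by linear_combination ht
  rw [hd2] at h2 hd ⊢
  by_cases hw1 : w.1 = 0
  · have hw2 : w.2 ≠ 0 := hw.resolve_left (fun h => h hw1)
    rw [hw1] at h1 h2
    have hb0 : b = 0 := by
      have : b * w.2 = 0 := by linear_combination h1
      exact (mul_eq_zero.1 this).resolve_right hw2
    have ha1 : a = 1 := by
      have : (1 - a) * w.2 = 0 := by linear_combination h2
      have := (mul_eq_zero.1 this).resolve_right hw2
      linear_combination -this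
    refine ⟨c / (w.2 * w.2), ?_, ?_, ?_, ?_⟩
    · rw [hw1, ha1]
      ring
    · rw [hw1, hb0]
      ring
    · field_simp
    · rw [hw1, ha1]
      ring
  · refine ⟨-b / (w.1 * w.1), ?_, ?_, ?_, ?_⟩
    · field_simp
      linear_combination h1
    · field_simp
    · have h3 : c * w.1 = (a - 1) * w.2 := by linear_combination h2
      have h4 : (a - 1) * w.1 = -b * w.2 := by linear_combination h1
      field_simp
      linear_combination w.1 * h3 + w.2 * h4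
    · field_simp
      linear_combination -h1

theorem IsU.exists_fix {g : GL (Fin 2) K} (h : IsU g) : ∃ w : V2 K, Nz w ∧ g • w = w := by
  obtain ⟨ht, hd⟩ := h
  obtain ⟨a, ha⟩ : ∃ a, a = (g : Matrix (Fin 2) (Fin 2) K) 0 0 := ⟨_, rfl⟩
  obtain ⟨b, hb⟩ : ∃ b, b = (g : Matrix (Fin 2) (Fin 2) K) 0 1 := ⟨_, rfl⟩
  obtain ⟨c, hc⟩ : ∃ c, c = (g : Matrix (Fin 2) (Fin 2) K) 1 0 := ⟨_, rfl⟩
  obtain ⟨d, hdd⟩ : ∃ d, d = (g : Matrix (Fin 2) (Fin 2) K) 1 1 := ⟨_, rfl⟩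
  rw [← ha, ← hdd] at ht
  rw [← ha, ← hb, ← hc, ← hdd] at hd
  have hd2 : d = 2 - a := by linear_combination ht
  rw [hd2] at hd
  by_cases hc0 : c = 0
  · have h1 : (a - 1) * (a - 1) = 0 := by
      rw [hc0] at hd
      linear_combination -hd
    have h2 : a - 1 = 0 := by simpa using h1
    refine ⟨((1, 0) : K × K), Or.inl one_ne_zero, ?_⟩
    apply V2.ext
    · rw [smul_fst, ← ha, ← hb]
      show a * 1 + b * 0 = 1
      linear_combination h2
    · rw [smul_snd, ← hc, ← hdd]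
      show c * 1 + d * 0 = 0
      rw [hc0]
      ring
  · refine ⟨((a - 1, c) : K × K), Or.inr hc0, ?_⟩
    apply V2.ext
    · rw [smul_fst, ← ha, ← hb]
      show a * (a - 1) + b * c = a - 1
      linear_combination -hd
    · rw [smul_snd, ← hc, ← hdd, hd2]
      show c * (a - 1) + (2 - a) * c = c
      ring

theorem Ent.fix_of_pl {g : GL (Fin 2) K} {w w' : V2 K} {s : K} (h : Ent g w' s) (hp : Pl w w') :
    g • w = w := by
  obtain ⟨h1, h2, h3, h4⟩ := h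
  have hp' : w.1 * w'.2 = w.2 * w'.1 := hp
  apply V2.ext
  · rw [smul_fst, h1, h2]
    linear_combination s * w'.1 * hp'
  · rw [smul_snd, h3, h4]
    linear_combination s * w'.2 * hp'

theorem Ent.ne {g : GL (Fin 2) K} {w : V2 K} {s : K} (h : Ent g w s) (hg : g ≠ 1) : s ≠ 0 := by
  rintro rfl
  apply hg
  obtain ⟨h1, h2, h3, h4⟩ := h
  apply Units.ext
  ext i j
  fin_cases i <;> fin_cases j
  · simp [h1]
  · simp [h2]
  · simp [h3]
  · simp [h4]

/-- unipotent matrices whose product is unipotent are parallel -/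
theorem share {g g' : GL (Fin 2) K} (h : IsU g) (h' : IsU g') (hg : g ≠ 1) (hg' : g' ≠ 1)
    (hm : IsU (g * g')) {w w' : V2 K} (hw : Nz w) (hw' : Nz w') (hf : g • w = w)
    (hf' : g' • w' = w') : Pl w w' := by
  obtain ⟨s, hs⟩ := h.ent hw hf
  obtain ⟨s', hs'⟩ := h'.ent hw' hf'
  have hs0 := hs.ne hg
  have hs0' := hs'.ne hg'
  obtain ⟨h1, h2, h3, h4⟩ := hs
  obtain ⟨h1', h2', h3', h4'⟩ := hs'
  have ht := hm.1
  rw [Units.val_mul, Matrix.mul_apply, Fin.sum_univ_two, Matrix.mul_apply, Fin.sum_univ_two, h1, h2,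
    h3, h4, h1', h2', h3', h4'] at ht
  have h5 : s * s' * ((w.1 * w'.2 - w.2 * w'.1) * (w.1 * w'.2 - w.2 * w'.1)) = 0 := by
    linear_combination -ht
  have h6 := (mul_eq_zero.1 h5).resolve_left (mul_ne_zero hs0 hs0')
  have h7 : w.1 * w'.2 - w.2 * w'.1 = 0 := by simpa using h6
  exact sub_eq_zero.1 h7

/-- stabilizing a vertex -/
def Fx (g : GL (Fin 2) K) (x : Vx D) : Prop := ∀ w, g • w ∈ x.1 ↔ w ∈ x.1

theorem Fx.mul {g h : GL (Fin 2) K} {x : Vx D} (hg : Fx g x) (hh : Fx h x) : Fx (g * h) x := by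
  intro w
  rw [mul_smul, hg, hh]

theorem Fx.inv {g : GL (Fin 2) K} {x : Vx D} (hg : Fx g x) : Fx g⁻¹ x := by
  intro w
  rw [← hg, smul_inv_smul]

/-- the trace of a matrix which stabilizes a vertex -/
theorem Fx.trace {g : GL (Fin 2) K} {x : Vx D} (hg : Fx g x) :
    D.ge ((g : Matrix (Fin 2) (Fin 2) K) 0 0 + (g : Matrix (Fin 2) (Fin 2) K) 1 1) 0 := by
  have hx := eq_mkV x
  obtain ⟨a, ha⟩ : ∃ a, a = cen x := ⟨_, rfl⟩
  obtain ⟨n, hn⟩ : ∃ n, n = rad x := ⟨_, rfl⟩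
  rw [← ha, ← hn] at hx
  subst hx
  have h1 : D.ge ((g : Matrix (Fin 2) (Fin 2) K) 0 0 - a * (g : Matrix (Fin 2) (Fin 2) K) 1 0) 0 := by
    obtain ⟨t, ht, hv⟩ := D.surj' ((n + 1) / 2)
    have h1 : ((t, 0) : K × K) ∈ Lt D a n := by
      refine ⟨?_, DV.ge_zero⟩
      show D.ge (t - a * 0) _
      rw [mul_zero, sub_zero, DV.ge_iff ht, hv]
    have h2 := ((hg (t, 0)).2 h1).1
    rw [smul_fst, smul_snd] at h2
    have h3 : (g : Matrix (Fin 2) (Fin 2) K) 0 0 * t + (g : Matrix (Fin 2) (Fin 2) K) 0 1 * 0 -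
        a * ((g : Matrix (Fin 2) (Fin 2) K) 1 0 * t + (g : Matrix (Fin 2) (Fin 2) K) 1 1 * 0) =
        t * ((g : Matrix (Fin 2) (Fin 2) K) 0 0 - a * (g : Matrix (Fin 2) (Fin 2) K) 1 0) := by ring
    have h4 : D.ge (t * ((g : Matrix (Fin 2) (Fin 2) K) 0 0 -
      a * (g : Matrix (Fin 2) (Fin 2) K) 1 0)) ((n + 1) / 2) := h3 ▸ h2
    rw [DV.ge_mul_iff ht, hv] at h4
    exact h4.mono (by omega)
  have h1' : D.ge ((g : Matrix (Fin 2) (Fin 2) K) 1 0 * a + (g : Matrix (Fin 2) (Fin 2) K) 1 1) 0 := by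
    obtain ⟨t, ht, hv⟩ := D.surj' (-(n / 2))
    have h1 : ((a * t, t) : K × K) ∈ Lt D a n := by
      refine ⟨?_, ?_⟩
      · show D.ge (a * t - a * t) _
        rw [sub_self]
        exact DV.ge_zero
      · show D.ge t _
        rw [DV.ge_iff ht, hv]
    have h2 := ((hg (a * t, t)).2 h1).2
    rw [smul_snd] at h2
    have h3 : (g : Matrix (Fin 2) (Fin 2) K) 1 0 * (a * t) + (g : Matrix (Fin 2) (Fin 2) K) 1 1 * t =
        t * ((g : Matrix (Fin 2) (Fin 2) K) 1 0 * a + (g : Matrix (Fin 2) (Fin 2) K) 1 1) := by ring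
    have h4 : D.ge (t * ((g : Matrix (Fin 2) (Fin 2) K) 1 0 * a +
      (g : Matrix (Fin 2) (Fin 2) K) 1 1)) (-(n / 2)) := h3 ▸ h2
    rw [DV.ge_mul_iff ht, hv] at h4
    exact h4.mono (by omega)
  have h5 : (g : Matrix (Fin 2) (Fin 2) K) 0 0 + (g : Matrix (Fin 2) (Fin 2) K) 1 1 =
      ((g : Matrix (Fin 2) (Fin 2) K) 0 0 - a * (g : Matrix (Fin 2) (Fin 2) K) 1 0) +
      ((g : Matrix (Fin 2) (Fin 2) K) 1 0 * a + (g : Matrix (Fin 2) (Fin 2) K) 1 1) := by ring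
  rw [h5]
  exact h1.add h1'

/-- fixed vertices of upper triangular unipotent matrices -/
theorem fix_inf {g : GL (Fin 2) K} {s : K} (h : Ent g (mk2 1 0) s) (b : K) (n : ℤ) :
    Fx g (mkV D b n) ↔ D.ge s n := by
  obtain ⟨h1, h2, h3, h4⟩ := h
  have h1' : (g : Matrix (Fin 2) (Fin 2) K) 0 0 = 1 := by
    rw [h1]
    show 1 + s * (1 * 0) = 1
    ring
  have h2' : (g : Matrix (Fin 2) (Fin 2) K) 0 1 = -s := by
    rw [h2]
    show -(s * (1 * 1)) = -s
    ring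
  have h3' : (g : Matrix (Fin 2) (Fin 2) K) 1 0 = 0 := by
    rw [h3]
    show s * (0 * 0) = 0
    ring
  have h4' : (g : Matrix (Fin 2) (Fin 2) K) 1 1 = 1 := by
    rw [h4]
    show 1 - s * (1 * 0) = 1
    ring
  have hmem : ∀ w : V2 K, g • w ∈ (mkV D b n).1 ↔ w ∈ (mkV D (b + s) n).1 := by
    intro w
    show g • w ∈ Lt D b n ↔ w ∈ Lt D (b + s) n
    rw [mem_Lt, mem_Lt, smul_fst, smul_snd, h1', h2', h3', h4']
    have e1 : 1 * w.1 + -s * w.2 - b * (0 * w.1 + 1 * w.2) = w.1 - (b + s) * w.2 := by ring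
    have e2 : 0 * w.1 + 1 * w.2 = w.2 := by ring
    rw [e1, e2]
  have h5 : Fx g (mkV D b n) ↔ mkV D (b + s) n = mkV D b n := by
    constructor
    · intro h
      apply Subtype.ext
      ext w
      rw [← hmem, h]
    · intro h w
      rw [hmem, h]
  rw [h5, mkV_eq]
  have e : b + s - b = s := by ring
  rw [e]
  exact ⟨fun h => h.2, fun h => ⟨rfl, h⟩⟩

/-- fixed vertices of unipotent matrices, sufficient condition, one inclusion -/
theorem fix_fin_aux {g : GL (Fin 2) K} {a s : K} (h : Ent g (mk2 a 1) s) {b : K} {n : ℤ}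
    (h1 : D.ge s (-n)) (h2 : D.ge ((b - a) * (b - a) * s) n) {w : V2 K} (hw : w ∈ Lt D b n) :
    g • w ∈ Lt D b n := by
  obtain ⟨e1, e2, e3, e4⟩ := h
  have e1' : (g : Matrix (Fin 2) (Fin 2) K) 0 0 = 1 + s * a := by
    rw [e1]
    show 1 + s * (a * 1) = _
    ring
  have e2' : (g : Matrix (Fin 2) (Fin 2) K) 0 1 = -(s * (a * a)) := e2
  have e3' : (g : Matrix (Fin 2) (Fin 2) K) 1 0 = s := by
    rw [e3]
    show s * (1 * 1) = s
    ring
  have e4' : (g : Matrix (Fin 2) (Fin 2) K) 1 1 = 1 - s * a := by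
    rw [e4]
    show 1 - s * (a * 1) = _
    ring
  have h3 : D.ge ((b - a) * s) 0 := by
    by_cases ht : b - a = 0
    · rw [ht, zero_mul]
      exact DV.ge_zero
    · by_cases hs : s = 0
      · rw [hs, mul_zero]
        exact DV.ge_zero
      · right
        have h5 := h1.resolve_left hs
        have h6 := h2.resolve_left (mul_ne_zero (mul_ne_zero ht ht) hs)
        rw [D.mul _ _ (mul_ne_zero ht ht) hs, D.mul _ _ ht ht] at h6
        rw [D.mul _ _ ht hs]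
        omega
  rw [mem_Lt] at hw ⊢
  obtain ⟨hw1, hw2⟩ := hw
  rw [smul_fst, smul_snd, e1', e2', e3', e4']
  constructor
  · have h5 : (1 + s * a) * w.1 + -(s * (a * a)) * w.2 - b * (s * w.1 + (1 - s * a) * w.2) =
        (1 - (b - a) * s) * (w.1 - b * w.2) - (b - a) * (b - a) * s * w.2 := by ring
    rw [h5]
    apply DV.ge.sub
    · exact ((DV.ge_one.sub h3).mul hw1).mono (by omega)
    · exact (h2.mul hw2).mono (by omega)
  · have h5 : s * w.1 + (1 - s * a) * w.2 = s * (w.1 - b * w.2) + (1 + (b - a) * s) * w.2 := by ring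
    rw [h5]
    apply DV.ge.add
    · exact (h1.mul hw1).mono (by omega)
    · exact ((DV.ge_one.add h3).mul hw2).mono (by omega)

theorem Ent.inv {g : GL (Fin 2) K} {w : V2 K} {s : K} (h : Ent g w s) : Ent g⁻¹ w (-s) := by
  obtain ⟨h1, h2, h3, h4⟩ := h
  have hg : (g : Matrix (Fin 2) (Fin 2) K) = !![1 + s * (w.1 * w.2), -(s * (w.1 * w.1));
      s * (w.2 * w.2), 1 - s * (w.1 * w.2)] := by
    ext i j
    fin_cases i <;> fin_cases j <;> simp [h1, h2, h3, h4]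
  have hinv : (↑g⁻¹ : Matrix (Fin 2) (Fin 2) K) = !![1 - s * (w.1 * w.2), s * (w.1 * w.1);
      -(s * (w.2 * w.2)), 1 + s * (w.1 * w.2)] := by
    apply Units.inv_eq_of_mul_eq_one_right
    rw [hg, Matrix.mul_fin_two, Matrix.one_fin_two]
    ext i j
    fin_cases i <;> fin_cases j <;> simp <;> ring
  refine ⟨?_, ?_, ?_, ?_⟩
  · rw [hinv]
    simp
    ring
  · rw [hinv]
    simp
  · rw [hinv]
    simp
  · rw [hinv]
    simp

theorem fix_fin {g : GL (Fin 2) K} {a s : K} (h : Ent g (mk2 a 1) s) (b : K) (n : ℤ) :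
    Fx g (mkV D b n) ↔ D.ge s (-n) ∧ D.ge ((b - a) * (b - a) * s) n := by
  constructor
  · intro hg
    obtain ⟨e1, e2, e3, e4⟩ := h
    have e1' : (g : Matrix (Fin 2) (Fin 2) K) 0 0 = 1 + s * a := by
      rw [e1]
      show 1 + s * (a * 1) = _
      ring
    have e2' : (g : Matrix (Fin 2) (Fin 2) K) 0 1 = -(s * (a * a)) := e2
    have e3' : (g : Matrix (Fin 2) (Fin 2) K) 1 0 = s := by
      rw [e3]
      show s * (1 * 1) = s
      ring
    have e4' : (g : Matrix (Fin 2) (Fin 2) K) 1 1 = 1 - s * a := by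
      rw [e4]
      show 1 - s * (a * 1) = _
      ring
    constructor
    · obtain ⟨t, ht, hv⟩ := D.surj' ((n + 1) / 2)
      have h1 : ((t, 0) : K × K) ∈ Lt D b n := by
        refine ⟨?_, DV.ge_zero⟩
        show D.ge (t - b * 0) _
        rw [mul_zero, sub_zero, DV.ge_iff ht, hv]
      have h2 := ((hg (t, 0)).2 h1).2
      rw [smul_snd, e3', e4'] at h2
      have h3 : s * t + (1 - s * a) * 0 = t * s := by ring
      have h4 : D.ge (t * s) (-(n / 2)) := h3 ▸ h2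
      rw [DV.ge_mul_iff ht, hv] at h4
      exact h4.mono (by omega)
    · obtain ⟨t, ht, hv⟩ := D.surj' (-(n / 2))
      have h1 : ((b * t, t) : K × K) ∈ Lt D b n := by
        refine ⟨?_, ?_⟩
        · show D.ge (b * t - b * t) _
          rw [sub_self]
          exact DV.ge_zero
        · show D.ge t _
          rw [DV.ge_iff ht, hv]
      have h2 := ((hg (b * t, t)).2 h1).1
      rw [smul_fst, smul_snd, e1', e2', e3', e4'] at h2
      have h3 : (1 + s * a) * (b * t) + -(s * (a * a)) * t - b * (s * (b * t) + (1 - s * a) * t) =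
          -t * ((b - a) * (b - a) * s) := by ring
      have h4 : D.ge (-t * ((b - a) * (b - a) * s)) ((n + 1) / 2) := h3 ▸ h2
      rw [DV.ge_mul_iff (neg_ne_zero.2 ht), D.v_neg, hv] at h4
      exact h4.mono (by omega)
  · rintro ⟨h1, h2⟩ w
    refine ⟨fun hw => ?_, fun hw => fix_fin_aux h h1 h2 hw⟩
    have h3 : D.ge ((b - a) * (b - a) * -s) n := by
      rw [mul_neg]
      exact h2.neg
    have h4 := fix_fin_aux h.inv h1.neg h3 hw
    rwa [inv_smul_smul] at h4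

end Q30.BT
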